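import Mathlib.Algebra.Polynomial.RuleOfSigns
import Mathlib.Algebra.MvPolynomial.Funext
import Mathlib.Analysis.Calculus.InverseFunctionTheorem.FDeriv
import Mathlib.Analysis.Calculus.Deriv.Pow
import Mathlib.Analysis.Calculus.FDeriv.Pow
import Mathlib.Analysis.Calculus.ContDiff.Basic
import Mathlib.LinearAlgebra.Matrix.ToLinearEquiv
import Mathlib.Analysis.Calculus.FDeriv.Pi
import Mathlib.Analysis.InnerProductSpace.PiL2

/-!
# Generalized Vandermonde determinants and algebraic independence of generalized power sums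
-/

set_option autoImplicit false

namespace Pool.Agent.L0h44.ZW

open Polynomial

lemma signVariations_le (P : ℝ[X]) : P.signVariations ≤ P.support.card - 1 := by
  unfold signVariations
  have h1 : ((List.map SignType.sign P.coeffList).filter (· ≠ 0)).length ≤ P.support.card := by
    rw [List.filter_map, List.length_map]
    have h2 : (List.filter ((fun x : SignType => decide (x ≠ 0)) ∘ SignType.sign) P.coeffList) =
        List.filter (fun x : ℝ => decide (x ≠ 0)) P.coeffList := by
      apply List.filter_congr
      intro x _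
      simp [sign_eq_zero_iff]
    rw [h2]
    unfold coeffList
    rw [List.filter_map, List.length_map]
    have h3 : (List.filter ((fun x : ℝ => decide (x ≠ 0)) ∘ P.coeff) (List.range P.degree.succ).reverse).Nodup :=
      List.Nodup.filter _ (List.nodup_reverse.2 List.nodup_range)
    rw [← List.toFinset_card_of_nodup h3]
    apply Finset.card_le_card
    intro k hk
    rw [List.mem_toFinset, List.mem_filter] at hk
    have := hk.2
    simp only [Function.comp_apply, ne_eq, decide_not, Bool.not_eq_eq_eq_not, Bool.not_true,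
      decide_eq_false_iff_not] at this
    exact mem_support_iff.2 this
  have h4 := (List.destutter_sublist (· ≠ ·) ((List.map SignType.sign P.coeffList).filter (· ≠ 0))).length_le
  exact Nat.sub_le_sub_right (h4.trans h1) 1

/-- a real polynomial with at most `m` monomials and `m` different positive zeros is zero -/
lemma fewnomial {m : ℕ} (P : ℝ[X]) (hs : P.support.card ≤ m) (x : Fin m → ℝ) (hx : ∀ j, 0 < x j)
    (hinj : Function.Injective x) (h0 : ∀ j, P.eval (x j) = 0) : P = 0 := by
  by_contra hP
  have hm : 0 < P.support.card := Finset.card_pos.2 (support_nonempty.2 hP)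
  have h1 := (roots_countP_pos_le_signVariations (P := P)).trans (signVariations_le P)
  have h2 : m ≤ P.roots.countP (0 < ·) := by
    classical
    rw [Multiset.countP_eq_card_filter]
    have h3 : (Finset.univ.image x).val ≤ P.roots.filter (0 < ·) := by
      rw [Multiset.le_iff_subset (Finset.nodup _)]
      intro y hy
      rw [Finset.mem_val, Finset.mem_image] at hy
      obtain ⟨j, -, rfl⟩ := hy
      rw [Multiset.mem_filter, mem_roots hP]
      exact ⟨h0 j, hx j⟩
    have h4 := Multiset.card_le_card h3
    rw [Finset.card_val, Finset.card_image_of_injective _ hinj, Finset.card_univ, Fintype.card_fin] at h4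
    exact h4
  omega

/-- generalized Vandermonde determinants do not vanish -/
lemma gv {m : ℕ} (x : Fin m → ℝ) (hx : ∀ j, 0 < x j) (hinj : Function.Injective x)
    (e : Fin m → ℕ) (he : Function.Injective e) :
    (Matrix.of fun j l : Fin m => x j ^ e l).det ≠ 0 := by
  intro hdet
  obtain ⟨v, hv, hMv⟩ := Matrix.exists_mulVec_eq_zero_iff.2 hdet
  set P : ℝ[X] := ∑ l, C (v l) * X ^ e l with hP
  have hc : ∀ l, P.coeff (e l) = v l := by
    intro l
    rw [hP, finsetSum_coeff, Finset.sum_eq_single l]
    · simp
    · intro l' _ hne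
      rw [coeff_C_mul, coeff_X_pow, if_neg (fun h => hne (he h).symm), mul_zero]
    · intro h; exact absurd (Finset.mem_univ l) h
  have hs : P.support.card ≤ m := by
    classical
    have h1 : P.support ⊆ Finset.univ.image e := by
      intro k hk
      by_contra hcon
      rw [mem_support_iff] at hk
      apply hk
      rw [hP, finsetSum_coeff]
      apply Finset.sum_eq_zero
      intro l _
      rw [coeff_C_mul, coeff_X_pow, if_neg, mul_zero]
      intro h
      exact hcon (Finset.mem_image.2 ⟨l, Finset.mem_univ _, h.symm⟩)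
    refine (Finset.card_le_card h1).trans (Finset.card_image_le.trans ?_)
    simp
  have h0 : P = 0 := fewnomial P hs x hx hinj (fun j => by
    have := congrFun hMv j
    rw [Matrix.mulVec, dotProduct] at this
    rw [hP, eval_finsetSum]
    simp only [eval_mul, eval_C, eval_pow, eval_X]
    simp only [Matrix.of_apply, Pi.zero_apply] at this
    rw [← this]
    exact Finset.sum_congr rfl fun l _ => mul_comm _ _)
  apply hv
  funext l
  rw [← hc l, h0]
  simp

/-- the generalized power sums `∑_j x_j^{-d_l} z_j^{r_l}` -/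
noncomputable def ps {m : ℕ} (x : Fin m → ℝ) (r d : Fin m → ℕ) (z : Fin m → ℝ) : Fin m → ℝ :=
  fun l => ∑ j, (x j)⁻¹ ^ d l * z j ^ r l

lemma ps_strict {m : ℕ} (x : Fin m → ℝ) (r d : Fin m → ℕ) (z : Fin m → ℝ) :
    HasStrictFDerivAt (ps x r d)
      (ContinuousLinearMap.pi fun l => ∑ j, ((x j)⁻¹ ^ d l * ((r l : ℝ) * z j ^ (r l - 1))) •
        (ContinuousLinearMap.proj j : (Fin m → ℝ) →L[ℝ] ℝ)) z := by
  apply hasStrictFDerivAt_pi.2
  intro l
  apply HasStrictFDerivAt.fun_sum
  intro j _
  have h1 : HasStrictFDerivAt (fun w : Fin m → ℝ => w j)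
      (ContinuousLinearMap.proj j : (Fin m → ℝ) →L[ℝ] ℝ) z :=
    (ContinuousLinearMap.proj j : (Fin m → ℝ) →L[ℝ] ℝ).hasStrictFDerivAt
  have h2 := (HasStrictFDerivAt.pow h1 (r l)).const_mul ((x j)⁻¹ ^ d l)
  refine h2.congr_fderiv ?_
  ext w
  simp
  ring

/-- **generalized power sums are algebraically independent**: a nonzero polynomial does not vanish
identically on them -/
theorem ps_indep {m : ℕ} (x : Fin m → ℝ) (hx : ∀ j, 0 < x j) (hinj : Function.Injective x)
    (r d : Fin m → ℕ) (hr : ∀ l, 1 ≤ r l) (hrd : ∀ l l', r l = r l' → d l = d l' → l = l')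
    (H : MvPolynomial (Fin m) ℝ) (hH : H ≠ 0) : ∃ z : Fin m → ℝ, MvPolynomial.eval (ps x r d z) H ≠ 0 := by
  by_contra hcon
  push Not at hcon
  obtain ⟨σ, hσ⟩ : ∃ σ : ℕ, ∀ l, d l < σ := by
    obtain ⟨B, hB⟩ := (Set.finite_range d).bddAbove
    exact ⟨B + 1, fun l => Nat.lt_succ_of_le (hB ⟨l, rfl⟩)⟩
  set z0 : Fin m → ℝ := fun j => (x j)⁻¹ ^ σ with hz0
  set A : (Fin m → ℝ) →L[ℝ] (Fin m → ℝ) :=
    ContinuousLinearMap.pi fun l => ∑ j, ((x j)⁻¹ ^ d l * ((r l : ℝ) * z0 j ^ (r l - 1))) •
        (ContinuousLinearMap.proj j : (Fin m → ℝ) →L[ℝ] ℝ) with hA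
  have hstrict := ps_strict x r d z0
  -- surjectivity
  set e : Fin m → ℕ := fun l => d l + σ * (r l - 1) with he
  have hei : Function.Injective e := by
    intro l l' h
    simp only [he] at h
    have h1 := hσ l
    have h2 := hσ l'
    have h3 : r l - 1 = r l' - 1 := by
      have e1 : (d l + σ * (r l - 1)) / σ = r l - 1 := by
        rw [Nat.add_mul_div_left _ _ (by omega), Nat.div_eq_of_lt h1, zero_add]
      have e2 : (d l' + σ * (r l' - 1)) / σ = r l' - 1 := by
        rw [Nat.add_mul_div_left _ _ (by omega), Nat.div_eq_of_lt h2, zero_add]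
      rw [← e1, ← e2, h]
    have h4 := hr l
    have h5 := hr l'
    refine hrd l l' (by omega) ?_
    rw [h3] at h
    omega
  have hgv := gv (fun j => (x j)⁻¹) (fun j => inv_pos.2 (hx j))
    (fun j j' h => hinj (inv_injective h)) e hei
  have hAeq : ∀ w l, A w l = (r l : ℝ) * ∑ j, ((x j)⁻¹) ^ e l * w j := by
    intro w l
    rw [hA]
    simp only [ContinuousLinearMap.coe_pi', FunLike.coe_sum, Finset.sum_apply,
      FunLike.coe_smul, Pi.smul_apply, ContinuousLinearMap.proj_apply, smul_eq_mul]
    rw [Finset.mul_sum]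
    apply Finset.sum_congr rfl
    intro j _
    rw [hz0]
    simp only [he]
    rw [pow_add, ← pow_mul]
    ring
  have hinjA : Function.Injective A := by
    rw [← ContinuousLinearMap.coe_coe, ← LinearMap.ker_eq_bot, LinearMap.ker_eq_bot']
    intro w hw
    by_contra hw0
    apply hgv
    rw [← Matrix.det_transpose]
    refine Matrix.exists_mulVec_eq_zero_iff.1 ⟨w, hw0, ?_⟩
    funext l
    have h1 : A w l = 0 := by
      have := congrFun hw l
      simpa using this
    rw [hAeq] at h1
    rcases mul_eq_zero.1 h1 with h2 | h2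
    · have : r l = 0 := by exact_mod_cast h2
      have := hr l
      omega
    · rw [Matrix.mulVec, dotProduct]
      simp only [Matrix.transpose_apply, Matrix.of_apply, Pi.zero_apply]
      exact h2
  have hsurj : (A : (Fin m → ℝ) →ₗ[ℝ] (Fin m → ℝ)).range = ⊤ := by
    rw [LinearMap.range_eq_top]
    exact LinearMap.injective_iff_surjective.1 hinjA
  have hmap := hstrict.map_nhds_eq_of_surj hsurj
  have hev : ∀ᶠ y in nhds (ps x r d z0), MvPolynomial.eval y H = 0 := by
    rw [← hmap, Filter.eventually_map]
    exact Filter.Eventually.of_forall fun z => hcon z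
  -- a box
  rw [Metric.eventually_nhds_iff_ball] at hev
  obtain ⟨ε, hε, hball⟩ := hev
  apply hH
  refine MvPolynomial.funext_set (fun l => Metric.ball (ps x r d z0 l) ε) ?_ ?_
  · intro l
    rw [Real.ball_eq_Ioo]
    exact Set.Ioo_infinite (by linarith)
  · intro y hy
    rw [map_zero]
    apply hball
    rw [← ball_pi _ hε] at hy
    exact hy

end Pool.Agent.L0h44.ZW
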