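import Pool.Agent.L0h44.ZW.ZW9
import Pool.Agent.TH647.NR.Zeta

/-!
# The numbers `1, π ^ 2, ζ(3)`
-/

set_option autoImplicit false

namespace Pool.Agent.L0h44.ZW

open Finset

/-- `1, π ^ 2, ζ(3)` -/
noncomputable def wv : Fin 3 → ℝ := ![1, Real.pi ^ 2, Z 3]

lemma Z_succ {a : ℕ} (ha : 1 < a) : Z a = ∑' n : ℕ, 1 / ((n : ℝ) + 1) ^ a := by
  rw [Z, (Z_summable ha).tsum_eq_zero_add]
  have h1 : (1 : ℝ) / ((0 : ℕ) : ℝ) ^ a = 0 := by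
    rw [Nat.cast_zero, zero_pow (by omega), div_zero]
  rw [h1, zero_add]
  apply tsum_congr
  intro n
  push_cast
  rfl

theorem wv_measured : Measured wv := by
  obtain ⟨κ, hκ, c, hc, h⟩ := Pool.Agent.TH647.NR.meas_pi_zeta
  refine ⟨κ, c, hκ.le, hc, fun t ht H hH hco => ?_⟩
  have h1 := h t ht H hH hco
  have h2 : lin wv t = ∑ j : Fin (2 + 1), (t j : ℝ) *
      (![1, Real.pi ^ 2, ∑' n : ℕ, 1 / ((n : ℝ) + 1) ^ 3] : Fin (2 + 1) → ℝ) j := by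
    unfold lin wv
    rw [Z_succ (by norm_num)]
  rw [h2]
  exact h1

end Pool.Agent.L0h44.ZW
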