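import Pool.Agent.L0h44.ZW.ZW1
import Mathlib.Algebra.BigOperators.Ring.Finset
import Mathlib.Data.Nat.Factorization.Basic
import Mathlib.NumberTheory.ArithmeticFunction.Misc
import Mathlib.Analysis.SpecificLimits.Basic
import Mathlib.Data.Nat.Nth
import Mathlib.Data.Nat.Prime.Infinite

/-!
# The Dirichlet coefficients of a polynomial in zeta values
-/

set_option autoImplicit false

namespace Pool.Agent.L0h44.ZW

open Finset

/-- completely multiplicative on positive integers -/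
def CMul (g : ℕ → ℝ) : Prop := g 1 = 1 ∧ ∀ a b : ℕ, 0 < a → 0 < b → g (a * b) = g a * g b

lemma CMul.pow {g : ℕ → ℝ} (h : CMul g) {a : ℕ} (ha : 0 < a) (n : ℕ) : g (a ^ n) = g a ^ n := by
  induction n with
  | zero => rw [pow_zero, pow_zero, h.1]
  | succ n ih => rw [pow_succ, pow_succ, h.2 _ _ (pow_pos ha n) ha, ih]

lemma CMul.prod {g : ℕ → ℝ} (h : CMul g) {ι : Type*} (s : Finset ι) (f : ι → ℕ) (hf : ∀ i ∈ s, 0 < f i) :
    g (∏ i ∈ s, f i) = ∏ i ∈ s, g (f i) := by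
  classical
  induction s using Finset.induction_on with
  | empty => rw [prod_empty, prod_empty, h.1]
  | insert a s ha ih =>
    rw [prod_insert ha, prod_insert ha, h.2 _ _ (hf a (mem_insert_self _ _))
      (prod_pos fun i hi => hf i (mem_insert_of_mem hi)), ih fun i hi => hf i (mem_insert_of_mem hi)]

variable {m D : ℕ}

/-- the choices of the factors: `i l` integers in `[2, K]` for every variable `l` -/
def XX (K : ℕ) (i : Fin m → Fin (D + 1)) : Finset (∀ l : Fin m, Fin (i l : ℕ) → ℕ) :=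
  Fintype.piFinset fun _ => Fintype.piFinset fun _ => Icc 2 K

/-- the integer `∏ x_{l j}^{r_l}` -/
def MM (r : Fin m → ℕ) (i : Fin m → Fin (D + 1)) (x : ∀ l : Fin m, Fin (i l : ℕ) → ℕ) : ℕ :=
  ∏ l, ∏ j, x l j ^ r l

/-- the weight `∏ x_{l j}^{-d_l}` -/
noncomputable def ww (d : Fin m → ℕ) (i : Fin m → Fin (D + 1)) (x : ∀ l : Fin m, Fin (i l : ℕ) → ℕ) : ℝ :=
  ∏ l, ∏ j, ((x l j : ℝ)⁻¹) ^ d l

/-- the coefficient of `M^{-n}` -/
noncomputable def CC (K : ℕ) (r d : Fin m → ℕ) (q : (Fin m → Fin (D + 1)) → ℝ) (M : ℕ) : ℝ :=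
  ∑ i : Fin m → Fin (D + 1), q i * ∑ x ∈ (XX K i).filter (fun x => MM r i x = M), ww d i x

lemma XX_mem {K : ℕ} {i : Fin m → Fin (D + 1)} {x : ∀ l : Fin m, Fin (i l : ℕ) → ℕ} (hx : x ∈ XX K i)
    (l : Fin m) (j : Fin (i l : ℕ)) : 2 ≤ x l j ∧ x l j ≤ K := by
  unfold XX at hx
  rw [Fintype.mem_piFinset] at hx
  have := Fintype.mem_piFinset.1 (hx l) j
  exact Finset.mem_Icc.1 this

lemma MM_pos {K : ℕ} {r : Fin m → ℕ} {i : Fin m → Fin (D + 1)} {x : ∀ l : Fin m, Fin (i l : ℕ) → ℕ}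
    (hx : x ∈ XX K i) : 0 < MM r i x :=
  prod_pos fun l _ => prod_pos fun j _ => pow_pos (by have := (XX_mem hx l j).1; omega) _

lemma MM_le {K R : ℕ} (hK : 1 ≤ K) {r : Fin m → ℕ} (hr : ∀ l, r l ≤ R) {i : Fin m → Fin (D + 1)}
    {x : ∀ l : Fin m, Fin (i l : ℕ) → ℕ} (hx : x ∈ XX K i) : MM r i x ≤ K ^ (R * D * m) := by
  unfold MM
  have h1 : ∀ l ∈ (univ : Finset (Fin m)), ∏ j, x l j ^ r l ≤ K ^ (R * D) := by
    intro l _
    have h2 : ∏ j : Fin (i l : ℕ), x l j ^ r l ≤ ∏ j : Fin (i l : ℕ), K ^ R :=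
      Finset.prod_le_prod' fun j _ => (Nat.pow_le_pow_left (XX_mem hx l j).2 _).trans
        (Nat.pow_le_pow_right hK (hr l))
    refine h2.trans ?_
    rw [prod_const, card_univ, Fintype.card_fin, ← pow_mul]
    exact Nat.pow_le_pow_right hK (Nat.mul_le_mul_left _ (Nat.lt_succ_iff.1 (i l).2))
  have h3 := Finset.prod_le_prod' h1
  refine h3.trans (le_of_eq ?_)
  rw [prod_const, card_univ, Fintype.card_fin, ← pow_mul]

/-- expansion -/
lemma expand (K : ℕ) (r d : Fin m → ℕ) (q : (Fin m → Fin (D + 1)) → ℝ) {g : ℕ → ℝ} (hg : CMul g) (B : ℕ)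
    (hB : ∀ i : Fin m → Fin (D + 1), ∀ x ∈ XX K i, MM r i x ≤ B) :
    ∑ i : Fin m → Fin (D + 1), q i * ∏ l, (∑ k ∈ Icc 2 K, ((k : ℝ)⁻¹) ^ d l * g k ^ r l) ^ (i l : ℕ) =
      ∑ M ∈ Icc 1 B, CC K r d q M * g M := by
  have h1 : ∀ i : Fin m → Fin (D + 1), ∏ l, (∑ k ∈ Icc 2 K, ((k : ℝ)⁻¹) ^ d l * g k ^ r l) ^ (i l : ℕ) =
      ∑ x ∈ XX K i, ww d i x * g (MM r i x) := by
    intro i
    have h2 : ∀ l : Fin m, (∑ k ∈ Icc 2 K, ((k : ℝ)⁻¹) ^ d l * g k ^ r l) ^ (i l : ℕ) =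
        ∑ y ∈ Fintype.piFinset (fun _ : Fin (i l : ℕ) => Icc 2 K),
          ∏ j, ((y j : ℝ)⁻¹ ^ d l * g (y j) ^ r l) := fun l => Finset.sum_pow' _ _ _
    simp_rw [h2]
    rw [Finset.prod_univ_sum]
    unfold XX
    apply sum_congr rfl
    intro x hx
    have hx' : x ∈ XX K i := hx
    rw [ww, MM, hg.prod _ _ (fun l _ => prod_pos fun j _ => pow_pos (by have := (XX_mem hx' l j).1; omega) _),
      ← prod_mul_distrib]
    apply prod_congr rfl
    intro l _
    rw [hg.prod _ _ (fun j _ => pow_pos (by have := (XX_mem hx' l j).1; omega) _), ← prod_mul_distrib]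
    apply prod_congr rfl
    intro j _
    rw [hg.pow (by have := (XX_mem hx' l j).1; omega)]
  unfold CC
  simp_rw [sum_mul]
  rw [sum_comm]
  apply sum_congr rfl
  intro i _
  rw [h1]
  have h3 : ∑ x ∈ XX K i, ww d i x * g (MM r i x) =
      ∑ M ∈ Icc 1 B, ∑ x ∈ (XX K i).filter (fun x => MM r i x = M), ww d i x * g (MM r i x) := by
    refine (Finset.sum_fiberwise_of_maps_to (g := fun x => MM r i x) ?_ _).symm
    intro x hx
    exact Finset.mem_Icc.2 ⟨MM_pos hx, hB i x hx⟩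
  rw [h3, mul_sum]
  apply sum_congr rfl
  intro M _
  rw [mul_assoc, sum_mul]
  congr 1
  apply sum_congr rfl
  intro x hx
  rw [(Finset.mem_filter.1 hx).2]

/-! ### evaluation of integers at a family of numbers attached to the primes -/

/-- `k = ∏ p^e ↦ ∏ Z(p)^e` -/
noncomputable def chi (Z : ℕ → ℝ) (k : ℕ) : ℝ := k.factorization.prod fun p e => Z p ^ e

lemma chi_CMul (Z : ℕ → ℝ) : CMul (chi Z) := by
  refine ⟨by simp [chi], fun a b ha hb => ?_⟩
  unfold chi
  rw [Nat.factorization_mul ha.ne' hb.ne']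
  exact Finsupp.prod_add_index' (fun p => pow_zero _) (fun p e f => pow_add _ _ _)

lemma chi_prime (Z : ℕ → ℝ) {p : ℕ} (hp : p.Prime) : chi Z p = Z p := by
  unfold chi
  rw [hp.factorization]
  simp

/-- number of prime factors with multiplicity -/
noncomputable def Om (k : ℕ) : ℕ := k.factorization.sum fun _ e => e

lemma chi_smul (Z : ℕ → ℝ) (t : ℝ) (k : ℕ) : chi (fun p => t * Z p) k = t ^ Om k * chi Z k := by
  unfold chi Om Finsupp.prod Finsupp.sum
  rw [← prod_pow_eq_pow_sum, ← prod_mul_distrib]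
  exact prod_congr rfl fun p _ => mul_pow _ _ _

lemma Om_prime {p : ℕ} (hp : p.Prime) : Om p = 1 := by
  unfold Om
  rw [hp.factorization, Finsupp.sum_single_index rfl]

lemma Om_ge_two {k : ℕ} (hk : 2 ≤ k) (hp : ¬ k.Prime) : 2 ≤ Om k := by
  by_contra hcon
  have h1 : k = k.factorization.prod fun p e => p ^ e := (Nat.prod_factorization_pow_eq_self (by omega)).symm
  obtain ⟨p, hpp, hpk⟩ := Nat.exists_prime_and_dvd (n := k) (by omega)
  have hk0 : k ≠ 0 := by omega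
  have h2 : 1 ≤ k.factorization p := (hpp.dvd_iff_one_le_factorization hk0).1 hpk
  have h3 : p ∈ k.factorization.support := by
    rw [Finsupp.mem_support_iff]; omega
  have h4 : Om k = k.factorization p + ∑ q ∈ k.factorization.support.erase p, k.factorization q := by
    unfold Om Finsupp.sum
    rw [Finset.add_sum_erase _ _ h3]
  have h5 : k.factorization p = 1 := by omega
  have h6 : ∑ q ∈ k.factorization.support.erase p, k.factorization q = 0 := by omega
  have h7 : k.factorization.support.erase p = ∅ := by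
    rw [Finset.eq_empty_iff_forall_notMem]
    intro q hq
    have h8 := Finset.sum_eq_zero_iff.1 h6 q hq
    exact (Finsupp.mem_support_iff.1 (Finset.mem_of_mem_erase hq)) h8
  apply hp
  have h9 : k = p := by
    rw [h1]
    unfold Finsupp.prod
    rw [← Finset.mul_prod_erase _ _ h3, h7, h5]
    simp
  rw [h9]
  exact hpp

lemma Om_pos {k : ℕ} (hk : 2 ≤ k) : 1 ≤ Om k := by
  by_cases hp : k.Prime
  · rw [Om_prime hp]
  · exact (Om_ge_two hk hp).trans' (by norm_num)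

/-- a number with all prime factors `≤ P` is at most `P ^ Ω` -/
lemma le_pow_Om {P k : ℕ} (hk : k ≠ 0) (hP : ∀ p ∈ k.factorization.support, p ≤ P) : k ≤ P ^ Om k := by
  conv_lhs => rw [← Nat.prod_factorization_pow_eq_self hk]
  unfold Om Finsupp.prod Finsupp.sum
  rw [← prod_pow_eq_pow_sum]
  exact Finset.prod_le_prod' fun p hp => Nat.pow_le_pow_left (hP p hp) _

end Pool.Agent.L0h44.ZW
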