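import Pool.Agent.L0h44.ZW.ZW2
import Mathlib.Topology.Algebra.Polynomial
import Mathlib.Topology.Algebra.Order.LiminfLimsup

/-!
# Some coefficient with small index does not vanish
-/

set_option autoImplicit false

namespace Pool.Agent.L0h44.ZW

open Finset

variable {m D : ℕ}

/-- the first primes -/
noncomputable def pr (j : ℕ) : ℕ := Nat.nth Nat.Prime j

lemma pr_prime (j : ℕ) : (pr j).Prime := Nat.nth_mem_of_infinite Nat.infinite_setOfPred_prime j

lemma pr_inj : Function.Injective pr := Nat.nth_injective Nat.infinite_setOfPred_prime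

lemma pr_mono : StrictMono pr := Nat.nth_strictMono Nat.infinite_setOfPred_prime

/-- the values `z_j` at the prime `p_j`, `0` elsewhere -/
noncomputable def ZZ (z : Fin m → ℝ) (p : ℕ) : ℝ := ∑ j : Fin m, if p = pr j then z j else 0

lemma ZZ_ne (z : Fin m → ℝ) {p : ℕ} (h : ZZ z p ≠ 0) : ∃ j : Fin m, p = pr j := by
  unfold ZZ at h
  by_contra hcon
  push Not at hcon
  exact h (Finset.sum_eq_zero fun j _ => if_neg (hcon j))

lemma ZZ_pr (z : Fin m → ℝ) (j : Fin m) : ZZ z (pr j) = z j := by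
  unfold ZZ
  rw [Finset.sum_eq_single j]
  · rw [if_pos rfl]
  · intro j' _ hne
    exact if_neg fun h => hne (Fin.ext (pr_inj h)).symm
  · intro h; exact absurd (mem_univ j) h

lemma chi_ne (z : Fin m → ℝ) {k : ℕ} (h : chi (ZZ z) k ≠ 0) : ∀ p ∈ k.factorization.support, p ≤ pr m := by
  intro p hp
  unfold chi Finsupp.prod at h
  have h1 := Finset.prod_ne_zero_iff.1 h p hp
  have h2 : ZZ z p ≠ 0 := by
    intro h3
    apply h1
    simp only [h3]
    exact zero_pow (Finsupp.mem_support_iff.1 hp)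
  obtain ⟨j, hj⟩ := ZZ_ne z h2
  rw [hj]
  exact (pr_mono j.2).le

/-- weight of a monomial -/
def wt (r : Fin m → ℕ) (i : Fin m → Fin (D + 1)) : ℕ := ∑ l, r l * (i l : ℕ)

lemma wt_le {R : ℕ} {r : Fin m → ℕ} (hr : ∀ l, r l ≤ R) (i : Fin m → Fin (D + 1)) : wt r i ≤ R * D * m := by
  unfold wt
  have h1 : ∑ l, r l * (i l : ℕ) ≤ ∑ _l : Fin m, R * D :=
    Finset.sum_le_sum fun l _ => Nat.mul_le_mul (hr l) (Nat.lt_succ_iff.1 (i l).2)
  rw [sum_const, card_univ, Fintype.card_fin, smul_eq_mul] at h1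
  linarith

/-- **some coefficient does not vanish** -/
theorem exists_coeff (m D R : ℕ) : ∃ M0 : ℕ, 1 ≤ M0 ∧ ∀ r d : Fin m → ℕ, (∀ l, 1 ≤ r l) → (∀ l, r l ≤ R) →
    (∀ l l', r l = r l' → d l = d l' → l = l') → ∀ q : (Fin m → Fin (D + 1)) → ℝ, q ≠ 0 →
    ∃ M, 1 ≤ M ∧ M ≤ M0 ∧ CC M0 r d q M ≠ 0 := by
  have hpm : 2 ≤ pr m := (pr_prime m).two_le
  set M0 : ℕ := pr m ^ (R * D * m + 1) with hM0
  have hM01 : pr m ≤ M0 := by
    rw [hM0]
    exact Nat.le_self_pow (by omega) _
  refine ⟨M0, by omega, fun r d hr1 hrR hrd q hq => ?_⟩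
  by_contra hcon
  push Not at hcon
  -- the minimal weight
  obtain ⟨i0, hi0, hmin⟩ : ∃ i0, q i0 ≠ 0 ∧ ∀ i, q i ≠ 0 → wt r i0 ≤ wt r i := by
    have hne : (univ.filter fun i => q i ≠ 0).Nonempty := by
      obtain ⟨i, hi⟩ := Function.ne_iff.1 hq
      exact ⟨i, Finset.mem_filter.2 ⟨mem_univ _, hi⟩⟩
    obtain ⟨i0, h1, h2⟩ := Finset.exists_min_image _ (fun i => wt r i) hne
    exact ⟨i0, (Finset.mem_filter.1 h1).2, fun i hi => h2 i (Finset.mem_filter.2 ⟨mem_univ _, hi⟩)⟩
  set w := wt r i0 with hw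
  -- the polynomial
  set em : (Fin m → Fin (D + 1)) → (Fin m →₀ ℕ) := fun i => Finsupp.equivFunOnFinite.symm fun l => (i l : ℕ)
    with hem
  have hem_inj : Function.Injective em := by
    intro i i' h
    funext l
    have := DFunLike.congr_fun h l
    simp only [hem, Finsupp.equivFunOnFinite_symm_apply_apply] at this
    exact Fin.ext this
  set H : MvPolynomial (Fin m) ℝ := ∑ i ∈ univ.filter (fun i => wt r i = w), MvPolynomial.monomial (em i) (q i)
    with hH
  have hH0 : H ≠ 0 := by
    intro h0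
    have h1 : MvPolynomial.coeff (em i0) H = q i0 := by
      rw [hH, MvPolynomial.coeff_sum, Finset.sum_eq_single i0]
      · rw [MvPolynomial.coeff_monomial, if_pos rfl]
      · intro i _ hne
        rw [MvPolynomial.coeff_monomial, if_neg fun h => hne (hem_inj h)]
      · intro h
        exact absurd (show i0 ∈ univ.filter (fun i => wt r i = w) from Finset.mem_filter.2 ⟨mem_univ _, rfl⟩) h
    rw [h0, MvPolynomial.coeff_zero] at h1
    exact hi0 h1.symm
  obtain ⟨z, hz⟩ := ps_indep (fun j : Fin m => (pr j : ℝ)) (fun j => by exact_mod_cast (pr_prime j).pos)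
    (fun j j' h => Fin.ext (pr_inj (by
      have h' : ((pr j : ℕ) : ℝ) = ((pr j' : ℕ) : ℝ) := h
      exact_mod_cast h'))) r d hr1 hrd H hH0
  apply hz
  -- the scaled function
  set V : Fin m → ℝ → ℝ := fun l t =>
    ∑ k ∈ Icc 2 M0, ((k : ℝ)⁻¹) ^ d l * (t ^ (r l * (Om k - 1)) * chi (ZZ z) k ^ r l) with hV
  set G : ℝ → ℝ := fun t => ∑ i : Fin m → Fin (D + 1), q i * (t ^ (wt r i - w) * ∏ l, V l t ^ (i l : ℕ)) with hG
  have hVc : ∀ l, Continuous (V l) := fun l => by
    rw [hV]
    exact continuous_finsetSum _ fun k _ => continuous_const.mul ((continuous_pow _).mul continuous_const)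
  have hGc : Continuous G := by
    rw [hG]
    exact continuous_finsetSum _ fun i _ => continuous_const.mul ((continuous_pow _).mul
      (continuous_finsetProd _ fun l _ => (hVc l).pow _))
  -- the value at zero
  have hV0 : ∀ l, V l 0 = ps (fun j : Fin m => (pr j : ℝ)) r d z l := by
    intro l
    rw [hV]
    dsimp only
    unfold ps
    have h1 : ∀ k ∈ Icc 2 M0, ((k : ℝ)⁻¹) ^ d l * ((0 : ℝ) ^ (r l * (Om k - 1)) * chi (ZZ z) k ^ r l) =
        ∑ j : Fin m, if k = pr j then ((pr j : ℝ)⁻¹) ^ d l * z j ^ r l else 0 := by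
      intro k hk
      have hk2 : 2 ≤ k := (Finset.mem_Icc.1 hk).1
      by_cases hkp : ∃ j : Fin m, k = pr j
      · obtain ⟨j, rfl⟩ := hkp
        rw [Om_prime (pr_prime j), Nat.sub_self, mul_zero, pow_zero, one_mul, chi_prime _ (pr_prime j), ZZ_pr,
          Finset.sum_eq_single j]
        · rw [if_pos rfl]
        · intro j' _ hne
          exact if_neg fun h => hne (Fin.ext (pr_inj h)).symm
        · intro h; exact absurd (mem_univ j) h
      · have h2 : ∑ j : Fin m, (if k = pr j then ((pr j : ℝ)⁻¹) ^ d l * z j ^ r l else 0) = 0 :=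
          Finset.sum_eq_zero fun j _ => if_neg fun h => hkp ⟨j, h⟩
        rw [h2]
        by_cases hpk : k.Prime
        · rw [chi_prime _ hpk]
          have h3 : ZZ z k = 0 := by
            by_contra h4
            exact hkp (ZZ_ne z h4)
          rw [h3, zero_pow (Nat.one_le_iff_ne_zero.1 (hr1 l))]
          ring
        · have h3 := Om_ge_two hk2 hpk
          have h4 : r l * (Om k - 1) ≠ 0 := by
            have h5 := hr1 l
            have h6 : Om k - 1 ≠ 0 := Nat.sub_ne_zero_of_lt (lt_of_lt_of_le (by norm_num) h3)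
            have h7 : r l ≠ 0 := Nat.one_le_iff_ne_zero.1 h5
            exact Nat.mul_ne_zero h7 h6
          rw [zero_pow h4]
          ring
    rw [Finset.sum_congr rfl h1, Finset.sum_comm]
    apply Finset.sum_congr rfl
    intro j _
    rw [Finset.sum_ite_eq' (Icc 2 M0) (pr j) (fun _ => ((pr j : ℝ)⁻¹) ^ d l * z j ^ r l), if_pos]
    exact Finset.mem_Icc.2 ⟨(pr_prime j).two_le, (pr_mono j.2).le.trans hM01⟩
  have hG0 : G 0 = MvPolynomial.eval (ps (fun j : Fin m => (pr j : ℝ)) r d z) H := by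
    rw [hG, hH, map_sum]
    dsimp only
    rw [Finset.sum_filter]
    apply Finset.sum_congr rfl
    intro i _
    by_cases hqi : q i = 0
    · rw [hqi, zero_mul]
      split_ifs
      · simp
      · rfl
    have h1 := hmin i hqi
    by_cases hwi : wt r i = w
    · rw [if_pos hwi, hwi, Nat.sub_self, pow_zero, one_mul, MvPolynomial.eval_monomial]
      congr 1
      rw [Finsupp.prod_fintype _ _ (fun l => pow_zero _)]
      apply Finset.prod_congr rfl
      intro l _
      rw [hV0, hem]
      simp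
    · rw [if_neg hwi, zero_pow (by omega)]
      ring
  rw [← hG0]
  -- the bound
  obtain ⟨B, hB⟩ : ∃ B : ℕ, ∀ i : Fin m → Fin (D + 1), ∀ x ∈ XX M0 i, MM r i x ≤ B :=
    ⟨M0 ^ (R * D * m), fun i x hx => MM_le (by omega) hrR hx⟩
  set S : ℝ := ∑ M ∈ Icc 1 B, |CC M0 r d q M * chi (ZZ z) M| with hS
  have hbound : ∀ t : ℝ, 0 < t → t ≤ 1 → |G t| ≤ t * S := by
    intro t ht0 ht1
    have h1 := expand M0 r d q (chi_CMul fun p => t * ZZ z p) B hB
    have h2 : ∑ i : Fin m → Fin (D + 1), q i *
        ∏ l, (∑ k ∈ Icc 2 M0, ((k : ℝ)⁻¹) ^ d l * chi (fun p => t * ZZ z p) k ^ r l) ^ (i l : ℕ) =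
        t ^ w * G t := by
      rw [hG]
      dsimp only
      rw [mul_sum]
      apply Finset.sum_congr rfl
      intro i _
      by_cases hqi : q i = 0
      · rw [hqi]; ring
      have h3 : ∀ l, ∑ k ∈ Icc 2 M0, ((k : ℝ)⁻¹) ^ d l * chi (fun p => t * ZZ z p) k ^ r l =
          t ^ r l * V l t := by
        intro l
        rw [hV]
        dsimp only
        rw [mul_sum]
        apply Finset.sum_congr rfl
        intro k hk
        have hk2 := (Finset.mem_Icc.1 hk).1
        have hOm := Om_pos hk2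
        rw [chi_smul, mul_pow, ← pow_mul]
        have e1 : Om k * r l = r l + r l * (Om k - 1) := by
          obtain ⟨s, hs⟩ := Nat.exists_eq_add_of_le hOm
          rw [hs]
          have : 1 + s - 1 = s := by omega
          rw [this]
          ring
        rw [e1, pow_add]
        ring
      have h4 : ∏ l, (t ^ r l * V l t) ^ (i l : ℕ) = t ^ wt r i * ∏ l, V l t ^ (i l : ℕ) := by
        unfold wt
        rw [← prod_pow_eq_pow_sum, ← prod_mul_distrib]
        apply Finset.prod_congr rfl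
        intro l _
        rw [mul_pow, ← pow_mul]
      simp_rw [h3]
      rw [h4]
      have h5 : t ^ wt r i = t ^ w * t ^ (wt r i - w) := by
        rw [← pow_add, Nat.add_sub_cancel' (hmin i hqi)]
      rw [h5]
      ring
    rw [h2] at h1
    have h6 : |t ^ w * G t| ≤ t ^ (w + 1) * S := by
      rw [h1, hS, mul_sum]
      refine (Finset.abs_sum_le_sum_abs _ _).trans (Finset.sum_le_sum fun M hM => ?_)
      rw [chi_smul]
      by_cases h7 : CC M0 r d q M * chi (ZZ z) M = 0
      · have e1 : CC M0 r d q M * (t ^ Om M * chi (ZZ z) M) = t ^ Om M * (CC M0 r d q M * chi (ZZ z) M) := by ring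
        rw [e1, h7]
        simp
      · have h8 : CC M0 r d q M ≠ 0 := left_ne_zero_of_mul h7
        have h9 : chi (ZZ z) M ≠ 0 := right_ne_zero_of_mul h7
        have hM1 : 1 ≤ M := (Finset.mem_Icc.1 hM).1
        have h10 : w + 1 ≤ Om M := by
          by_contra h11
          apply h8
          apply hcon M hM1
          have h12 := le_pow_Om (by omega) (chi_ne z h9)
          refine h12.trans ?_
          rw [hM0]
          apply Nat.pow_le_pow_right (by omega)
          have := wt_le hrR i0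
          omega
        have e1 : CC M0 r d q M * (t ^ Om M * chi (ZZ z) M) = t ^ Om M * (CC M0 r d q M * chi (ZZ z) M) := by ring
        rw [e1, abs_mul, abs_of_pos (pow_pos ht0 _)]
        exact mul_le_mul_of_nonneg_right (pow_le_pow_of_le_one ht0.le ht1 h10) (abs_nonneg _)
    rw [abs_mul, abs_of_pos (pow_pos ht0 _), pow_succ, mul_assoc] at h6
    exact le_of_mul_le_mul_left h6 (pow_pos ht0 _)
  -- the limit
  by_contra hne
  have hpos : 0 < |G 0| := abs_pos.2 hne
  have hS0 : 0 ≤ S := Finset.sum_nonneg fun _ _ => abs_nonneg _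
  have hcont : Filter.Tendsto (fun t => |G t| - t * S) (nhds 0) (nhds (|G 0| - 0 * S)) :=
    ((hGc.abs).sub (continuous_id.mul continuous_const)).tendsto 0
  have hev := hcont.eventually (lt_mem_nhds (show (0 : ℝ) < |G 0| - 0 * S by linarith))
  obtain ⟨ε, hε, hball⟩ := Metric.eventually_nhds_iff.1 hev
  set t : ℝ := min (ε / 2) 1 with ht
  have ht0 : 0 < t := lt_min (by linarith) one_pos
  have ht1 : t ≤ 1 := min_le_right _ _
  have ht2 : t ≤ ε / 2 := min_le_left _ _
  have h1 := hball (show dist t 0 < ε by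
    rw [Real.dist_eq, sub_zero, abs_of_pos ht0]; linarith)
  have h2 := hbound t ht0 ht1
  linarith

end Pool.Agent.L0h44.ZW
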