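import Pool.Agent.L0h44.ZW.ZW3
import Mathlib.Algebra.MvPolynomial.Degrees
import Mathlib.Algebra.MvPolynomial.Funext
import Mathlib.Algebra.Polynomial.AlgebraMap
import Mathlib.Analysis.SpecialFunctions.Trigonometric.Basic
import Mathlib.Data.Nat.Choose.Sum

/-!
# A polynomial in zeta values as a polynomial in the small quantities `ζ(a) - 1`
-/

set_option autoImplicit false

namespace Pool.Agent.L0h44.ZW

open Finset Polynomial

/-- exponent vectors -/
noncomputable def em {k D : ℕ} (s : Fin k → Fin (D + 1)) : Fin k →₀ ℕ :=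
  Finsupp.equivFunOnFinite.symm fun j => (s j : ℕ)

lemma em_apply {k D : ℕ} (s : Fin k → Fin (D + 1)) (j : Fin k) : em s j = (s j : ℕ) := rfl

lemma em_inj {k D : ℕ} : Function.Injective (em : (Fin k → Fin (D + 1)) → (Fin k →₀ ℕ)) := by
  intro s s' h
  funext j
  have := DFunLike.congr_fun h j
  rw [em_apply, em_apply] at this
  exact Fin.ext this

lemma aeval_eq {k D : ℕ} (P : MvPolynomial (Fin k) ℤ) (hP : ∀ j, P.degreeOf j ≤ D) {A : Type*} [CommRing A]
    (v : Fin k → A) : MvPolynomial.aeval v P =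
      ∑ s : Fin k → Fin (D + 1), ((P.coeff (em s) : ℤ) : A) * ∏ j, v j ^ (s j : ℕ) := by
  classical
  rw [MvPolynomial.aeval_def, MvPolynomial.eval₂_eq']
  have h1 : ∑ s : Fin k → Fin (D + 1), ((P.coeff (em s) : ℤ) : A) * ∏ j, v j ^ (s j : ℕ) =
      ∑ e ∈ (univ : Finset (Fin k → Fin (D + 1))).image em, ((P.coeff e : ℤ) : A) * ∏ j, v j ^ e j := by
    rw [Finset.sum_image fun s _ s' _ h => em_inj h]
    rfl
  rw [h1]
  have h2 : P.support ⊆ (univ : Finset (Fin k → Fin (D + 1))).image em := by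
    intro e he
    refine Finset.mem_image.2 ⟨fun j => ⟨e j, Nat.lt_succ_of_le ?_⟩, mem_univ _, ?_⟩
    · exact (MvPolynomial.le_degreeOf_of_mem_support j he).trans (hP j)
    · ext j; rfl
  rw [← Finset.sum_subset h2]
  · apply Finset.sum_congr rfl
    intro e _
    rw [eq_intCast]
  · intro e _ he
    rw [MvPolynomial.notMem_support_iff.1 he]
    simp

/-- binomial expansion, padded -/
lemma one_add_pow' {A : Type*} [CommRing A] {D : ℕ} (y : A) (s : Fin (D + 1)) :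
    (y + 1) ^ (s : ℕ) = ∑ t : Fin (D + 1), ((s : ℕ).choose (t : ℕ) : A) * y ^ (t : ℕ) := by
  rw [add_pow, Fin.sum_univ_eq_sum_range (fun t => ((s : ℕ).choose t : A) * y ^ t) (D + 1)]
  have h1 : range ((s : ℕ) + 1) ⊆ range (D + 1) := Finset.range_subset_range.2 (by omega)
  rw [← Finset.sum_subset h1]
  · apply Finset.sum_congr rfl
    intro t _
    rw [one_pow]; ring
  · intro t _ ht
    rw [Finset.mem_range, not_lt] at ht
    rw [Nat.choose_eq_zero_of_lt (by omega)]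
    simp

variable {m D : ℕ}

/-- the coefficients of the polynomial in `ζ(a_l) - 1` -/
noncomputable def tt (D : ℕ) (f : MvPolynomial (Fin m) ℤ) (i : Fin m → Fin (D + 1)) : ℤ :=
  ∑ s : Fin m → Fin (D + 1), f.coeff (em s) * ∏ l : Fin m, ((s l : ℕ).choose (i l : ℕ) : ℤ)

lemma tt_aeval (f : MvPolynomial (Fin m) ℤ) (hf : ∀ j, f.degreeOf j ≤ D) {A : Type*} [CommRing A]
    (v : Fin m → A) : MvPolynomial.aeval v f =
      ∑ i : Fin m → Fin (D + 1), ((tt D f i : ℤ) : A) * ∏ l, (v l - 1) ^ (i l : ℕ) := by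
  rw [aeval_eq f hf]
  have h1 : ∀ i : Fin m → Fin (D + 1), ((tt D f i : ℤ) : A) * ∏ l, (v l - 1) ^ (i l : ℕ) =
      ∑ s : Fin m → Fin (D + 1), ((f.coeff (em s) : ℤ) : A) *
        ∏ l, (((s l : ℕ).choose (i l : ℕ) : A) * (v l - 1) ^ (i l : ℕ)) := by
    intro i
    rw [tt, Int.cast_sum, sum_mul]
    apply Finset.sum_congr rfl
    intro s _
    rw [prod_mul_distrib]
    push_cast
    ring
  simp_rw [h1]
  rw [sum_comm]
  apply Finset.sum_congr rfl
  intro s _
  rw [← mul_sum]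
  congr 1
  have h2 : ∀ l : Fin m, v l ^ (s l : ℕ) =
      ∑ t : Fin (D + 1), ((s l : ℕ).choose (t : ℕ) : A) * (v l - 1) ^ (t : ℕ) := by
    intro l
    rw [← one_add_pow', sub_add_cancel]
  simp_rw [h2]
  rw [Finset.prod_univ_sum, Fintype.piFinset_univ]

lemma tt_ne (f : MvPolynomial (Fin m) ℤ) (hf : ∀ j, f.degreeOf j ≤ D) (h0 : f ≠ 0) :
    ∃ i : Fin m → Fin (D + 1), tt D f i ≠ 0 := by
  by_contra hcon
  push Not at hcon
  apply h0
  apply MvPolynomial.funext
  intro v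
  have h1 := tt_aeval f hf v
  have h2 : MvPolynomial.eval v f = MvPolynomial.aeval v f := by
    rw [← MvPolynomial.coe_aeval_eq_eval]; rfl
  rw [map_zero, h2]
  refine h1.trans (Finset.sum_eq_zero fun i _ => ?_)
  rw [hcon i, Int.cast_zero, zero_mul]

lemma tt_le (f : MvPolynomial (Fin m) ℤ) {H : ℝ} (hH : ∀ e, |((f.coeff e : ℤ) : ℝ)| ≤ H)
    (i : Fin m → Fin (D + 1)) : |((tt D f i : ℤ) : ℝ)| ≤ (D + 1 : ℝ) ^ m * 2 ^ (D * m) * H := by
  have hH0 : 0 ≤ H := (abs_nonneg _).trans (hH 0)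
  unfold tt
  rw [Int.cast_sum]
  refine (Finset.abs_sum_le_sum_abs _ _).trans ?_
  have h1 : ∀ s ∈ (univ : Finset (Fin m → Fin (D + 1))),
      |((f.coeff (em s) * ∏ l : Fin m, ((s l : ℕ).choose (i l : ℕ) : ℤ) : ℤ) : ℝ)| ≤ 2 ^ (D * m) * H := by
    intro s _
    rw [Int.cast_mul, abs_mul, mul_comm]
    apply mul_le_mul _ (hH _) (abs_nonneg _) (by positivity)
    rw [Int.cast_prod, abs_prod]
    have h2 : ∀ l ∈ (univ : Finset (Fin m)), |(((s l : ℕ).choose (i l : ℕ) : ℤ) : ℝ)| ≤ 2 ^ D := by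
      intro l _
      rw [Int.cast_natCast, Nat.abs_cast]
      have h3 : ((s l : ℕ).choose (i l : ℕ)) ≤ 2 ^ D :=
        (Nat.choose_le_two_pow _ _).trans (Nat.pow_le_pow_right (by norm_num) (Nat.lt_succ_iff.1 (s l).2))
      exact_mod_cast h3
    have h4 := Finset.prod_le_prod (fun l _ => abs_nonneg _) h2
    rw [prod_const, card_univ, Fintype.card_fin, ← pow_mul] at h4
    exact h4
  refine (Finset.sum_le_sum h1).trans (le_of_eq ?_)
  rw [sum_const, card_univ, Fintype.card_fun, Fintype.card_fin, Fintype.card_fin, nsmul_eq_mul]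
  push_cast
  ring

/-! ### measures of linear independence -/

variable {k : ℕ}

/-- the linear form with integer coefficients -/
noncomputable def lin (v : Fin k → ℝ) (t : Fin k → ℤ) : ℝ := ∑ j, (t j : ℝ) * v j

/-- a polynomial measure of linear independence -/
def Measured (v : Fin k → ℝ) : Prop := ∃ κ c : ℝ, 0 ≤ κ ∧ 0 < c ∧ ∀ t : Fin k → ℤ, t ≠ 0 →
  ∀ H : ℝ, 1 ≤ H → (∀ j, |(t j : ℝ)| ≤ H) → c ≤ H ^ κ * |lin v t|

lemma lin_le (v : Fin k → ℝ) (t : Fin k → ℤ) {H : ℝ} (hH : ∀ j, |(t j : ℝ)| ≤ H) :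
    |lin v t| ≤ (∑ j, |v j|) * H := by
  unfold lin
  refine (Finset.abs_sum_le_sum_abs _ _).trans ?_
  rw [sum_mul]
  apply Finset.sum_le_sum
  intro j _
  rw [abs_mul, mul_comm]
  exact mul_le_mul_of_nonneg_left (hH j) (abs_nonneg _)

lemma Measured.ne {v : Fin k → ℝ} (hv : Measured v) {t : Fin k → ℤ} (ht : t ≠ 0) : lin v t ≠ 0 := by
  obtain ⟨κ, c, -, hc, h⟩ := hv
  intro h0
  have h1 := h t ht (max (∑ j, |(t j : ℝ)|) 1) (le_max_right _ _) (fun j => by
    refine le_trans ?_ (le_max_left _ _)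
    exact Finset.single_le_sum (f := fun j => |(t j : ℝ)|) (fun _ _ => abs_nonneg _) (mem_univ j))
  rw [h0, abs_zero, mul_zero] at h1
  linarith

/-! ### the coefficients as integer linear forms -/

/-- `M ^ Δ * CC` as an integer vector -/
noncomputable def WW (K Δ : ℕ) (r d : Fin m → ℕ) (T : (Fin m → Fin (D + 1)) → Fin k → ℤ) (M : ℕ) :
    Fin k → ℤ := fun j =>
  ∑ i : Fin m → Fin (D + 1), ∑ x ∈ (XX K i).filter (fun x => MM r i x = M),
    (∏ l, ∏ j, (x l j : ℤ) ^ (r l * Δ - d l)) * T i j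

lemma WW_lin {K Δ : ℕ} {r d : Fin m → ℕ} (hr : ∀ l, 1 ≤ r l) (hd : ∀ l, d l ≤ Δ)
    (T : (Fin m → Fin (D + 1)) → Fin k → ℤ) (M : ℕ) (v : Fin k → ℝ) :
    lin v (WW K Δ r d T M) = (M : ℝ) ^ Δ * CC K r d (fun i => lin v (T i)) M := by
  unfold WW CC lin
  have h0 : ∀ j : Fin k, ((∑ i : Fin m → Fin (D + 1), ∑ x ∈ (XX K i).filter (fun x => MM r i x = M),
      (∏ l, ∏ j, (x l j : ℤ) ^ (r l * Δ - d l)) * T i j : ℤ) : ℝ) * v j =
      ∑ i : Fin m → Fin (D + 1), ∑ x ∈ (XX K i).filter (fun x => MM r i x = M),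
      (∏ l, ∏ j, (x l j : ℝ) ^ (r l * Δ - d l)) * ((T i j : ℝ) * v j) := by
    intro j
    push_cast
    rw [sum_mul]
    apply Finset.sum_congr rfl
    intro i _
    rw [sum_mul]
    apply Finset.sum_congr rfl
    intro x _
    ring
  simp_rw [h0]
  rw [sum_comm, mul_sum]
  apply Finset.sum_congr rfl
  intro i _
  rw [sum_comm, mul_sum, mul_sum]
  apply Finset.sum_congr rfl
  intro x hx
  rw [Finset.mem_filter] at hx
  have h1 : (M : ℝ) ^ Δ * ww d i x = ∏ l, ∏ j, (x l j : ℝ) ^ (r l * Δ - d l) := by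
    rw [← hx.2]
    unfold MM ww
    push_cast
    rw [← prod_pow, ← prod_mul_distrib]
    apply Finset.prod_congr rfl
    intro l _
    rw [← prod_pow, ← prod_mul_distrib]
    apply Finset.prod_congr rfl
    intro j _
    have h2 : (x l j : ℝ) ≠ 0 := by
      have := (XX_mem hx.1 l j).1
      exact_mod_cast (by omega : x l j ≠ 0)
    have h3 : r l * Δ = (r l * Δ - d l) + d l :=
      (Nat.sub_add_cancel ((hd l).trans (Nat.le_mul_of_pos_left _ (hr l)))).symm
    rw [← pow_mul]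
    conv_lhs => rw [h3]
    rw [pow_add, mul_assoc, ← mul_pow, mul_inv_cancel₀ h2, one_pow, mul_one]
  rw [← h1, ← mul_sum]
  ring

lemma XX_card {K : ℕ} (hK : 1 ≤ K) (i : Fin m → Fin (D + 1)) : (XX K i).card ≤ K ^ (D * m) := by
  unfold XX
  rw [Fintype.card_piFinset]
  have h1 : ∀ l ∈ (univ : Finset (Fin m)),
      (Fintype.piFinset fun _ : Fin (i l : ℕ) => Icc 2 K).card ≤ K ^ D := by
    intro l _
    rw [Fintype.card_piFinset]
    have h2 : ∏ _j : Fin (i l : ℕ), (Icc 2 K).card ≤ ∏ _j : Fin (i l : ℕ), K :=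
      Finset.prod_le_prod' fun j _ => by rw [Nat.card_Icc]; omega
    refine h2.trans ?_
    rw [prod_const, card_univ, Fintype.card_fin]
    exact Nat.pow_le_pow_right hK (Nat.lt_succ_iff.1 (i l).2)
  have h3 := Finset.prod_le_prod' h1
  rw [prod_const, card_univ, Fintype.card_fin, ← pow_mul] at h3
  exact h3

lemma WW_le {K Δ : ℕ} (hK : 1 ≤ K) {r d : Fin m → ℕ} (T : (Fin m → Fin (D + 1)) → Fin k → ℤ) {H : ℝ}
    (hH0 : 0 ≤ H) (hT : ∀ i j, |(T i j : ℝ)| ≤ H) (M : ℕ) (j : Fin k) :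
    |((WW K Δ r d T M j : ℤ) : ℝ)| ≤ (D + 1 : ℝ) ^ m * K ^ (D * m) * ((M : ℝ) ^ Δ * H) := by
  unfold WW
  rw [Int.cast_sum]
  refine (Finset.abs_sum_le_sum_abs _ _).trans ?_
  have h1 : ∀ i ∈ (univ : Finset (Fin m → Fin (D + 1))),
      |((∑ x ∈ (XX K i).filter (fun x => MM r i x = M),
        (∏ l, ∏ j, (x l j : ℤ) ^ (r l * Δ - d l)) * T i j : ℤ) : ℝ)| ≤
        K ^ (D * m) * ((M : ℝ) ^ Δ * H) := by
    intro i _
    rw [Int.cast_sum]
    refine (Finset.abs_sum_le_sum_abs _ _).trans ?_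
    have h2 : ∀ x ∈ (XX K i).filter (fun x => MM r i x = M),
        |(((∏ l, ∏ j, (x l j : ℤ) ^ (r l * Δ - d l)) * T i j : ℤ) : ℝ)| ≤ (M : ℝ) ^ Δ * H := by
      intro x hx
      rw [Finset.mem_filter] at hx
      rw [Int.cast_mul, abs_mul]
      apply mul_le_mul _ (hT i j) (abs_nonneg _) (by positivity)
      have h3 : ∏ l, ∏ j, x l j ^ (r l * Δ - d l) ≤ M ^ Δ := by
        rw [← hx.2]
        unfold MM
        rw [← prod_pow]
        apply Finset.prod_le_prod'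
        intro l _
        rw [← prod_pow]
        apply Finset.prod_le_prod'
        intro j _
        rw [← pow_mul]
        exact Nat.pow_le_pow_right (by have := (XX_mem hx.1 l j).1; omega) (Nat.sub_le _ _)
      have h4 : |((∏ l, ∏ j, (x l j : ℤ) ^ (r l * Δ - d l) : ℤ) : ℝ)| =
          ((∏ l, ∏ j, x l j ^ (r l * Δ - d l) : ℕ) : ℝ) := by
        push_cast
        rw [abs_of_nonneg]
        positivity
      rw [h4]
      exact_mod_cast h3
    refine (Finset.sum_le_sum h2).trans ?_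
    rw [sum_const, nsmul_eq_mul]
    apply mul_le_mul_of_nonneg_right _ (by positivity)
    have h5 := (Finset.card_filter_le (XX K i) (fun x => MM r i x = M)).trans (XX_card hK i)
    exact_mod_cast h5
  refine (Finset.sum_le_sum h1).trans (le_of_eq ?_)
  rw [sum_const, card_univ, Fintype.card_fun, Fintype.card_fin, Fintype.card_fin, nsmul_eq_mul]
  push_cast
  ring

lemma ww_le_one {K : ℕ} {d : Fin m → ℕ} {i : Fin m → Fin (D + 1)} {x : ∀ l : Fin m, Fin (i l : ℕ) → ℕ}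
    (hx : x ∈ XX K i) : 0 ≤ ww d i x ∧ ww d i x ≤ 1 := by
  unfold ww
  refine ⟨by positivity, ?_⟩
  apply Finset.prod_le_one (fun l _ => by positivity)
  intro l _
  apply Finset.prod_le_one (fun j _ => by positivity)
  intro j _
  apply pow_le_one₀ (by positivity)
  have h1 : (1 : ℝ) ≤ (x l j : ℝ) := by
    have := (XX_mem hx l j).1
    exact_mod_cast (by omega : 1 ≤ x l j)
  exact inv_le_one_of_one_le₀ h1

lemma CC_le {K : ℕ} (hK : 1 ≤ K) {r d : Fin m → ℕ} (q : (Fin m → Fin (D + 1)) → ℝ) {H : ℝ}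
    (hq : ∀ i, |q i| ≤ H) (M : ℕ) : |CC K r d q M| ≤ (D + 1 : ℝ) ^ m * (K ^ (D * m) * H) := by
  have hH0 : 0 ≤ H := (abs_nonneg _).trans (hq (fun _ => 0))
  unfold CC
  refine (Finset.abs_sum_le_sum_abs _ _).trans ?_
  have h1 : ∀ i ∈ (univ : Finset (Fin m → Fin (D + 1))),
      |q i * ∑ x ∈ (XX K i).filter (fun x => MM r i x = M), ww d i x| ≤ K ^ (D * m) * H := by
    intro i _
    rw [abs_mul, mul_comm]
    apply mul_le_mul _ (hq i) (abs_nonneg _) (by positivity)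
    refine (Finset.abs_sum_le_sum_abs _ _).trans ?_
    have h2 : ∀ x ∈ (XX K i).filter (fun x => MM r i x = M), |ww d i x| ≤ 1 := by
      intro x hx
      have := ww_le_one (d := d) (Finset.mem_filter.1 hx).1
      rw [abs_of_nonneg this.1]
      exact this.2
    refine (Finset.sum_le_sum h2).trans ?_
    rw [sum_const, nsmul_eq_mul, mul_one]
    have h5 := (Finset.card_filter_le (XX K i) (fun x => MM r i x = M)).trans (XX_card hK i)
    exact_mod_cast h5
  refine (Finset.sum_le_sum h1).trans (le_of_eq ?_)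
  rw [sum_const, card_univ, Fintype.card_fun, Fintype.card_fin, Fintype.card_fin, nsmul_eq_mul]
  push_cast
  ring

/-! ### products close to each other -/

lemma prod_diff {ι : Type*} (s : Finset ι) (u v : ι → ℝ) (hu : ∀ i ∈ s, |u i| ≤ 1) (hv : ∀ i ∈ s, |v i| ≤ 1) :
    |∏ i ∈ s, u i - ∏ i ∈ s, v i| ≤ ∑ i ∈ s, |u i - v i| := by
  classical
  induction s using Finset.induction_on with
  | empty => simp
  | insert a s ha ih =>
    rw [prod_insert ha, prod_insert ha, sum_insert ha]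
    have h1 : u a * ∏ i ∈ s, u i - v a * ∏ i ∈ s, v i =
        (u a - v a) * ∏ i ∈ s, u i + v a * (∏ i ∈ s, u i - ∏ i ∈ s, v i) := by ring
    rw [h1]
    refine (abs_add_le _ _).trans (add_le_add ?_ ?_)
    · rw [abs_mul, abs_prod]
      have h2 : ∏ i ∈ s, |u i| ≤ 1 :=
        Finset.prod_le_one (fun i _ => abs_nonneg _) fun i hi => hu i (mem_insert_of_mem hi)
      calc |u a - v a| * ∏ i ∈ s, |u i| ≤ |u a - v a| * 1 := mul_le_mul_of_nonneg_left h2 (abs_nonneg _)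
        _ = _ := mul_one _
    · rw [abs_mul]
      calc |v a| * |∏ i ∈ s, u i - ∏ i ∈ s, v i| ≤ 1 * |∏ i ∈ s, u i - ∏ i ∈ s, v i| :=
            mul_le_mul_of_nonneg_right (hv a (mem_insert_self _ _)) (abs_nonneg _)
        _ = |∏ i ∈ s, u i - ∏ i ∈ s, v i| := one_mul _
        _ ≤ _ := ih (fun i hi => hu i (mem_insert_of_mem hi)) fun i hi => hv i (mem_insert_of_mem hi)

lemma pow_diff (k : ℕ) {u v : ℝ} (hu : |u| ≤ 1) (hv : |v| ≤ 1) : |u ^ k - v ^ k| ≤ k * |u - v| := by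
  have h1 := prod_diff (range k) (fun _ => u) (fun _ => v) (fun _ _ => hu) (fun _ _ => hv)
  rw [prod_const, prod_const, sum_const, card_range, nsmul_eq_mul] at h1
  exact h1

lemma mono_diff (i : Fin m → Fin (D + 1)) (u v : Fin m → ℝ) (hu : ∀ l, |u l| ≤ 1) (hv : ∀ l, |v l| ≤ 1)
    {τ : ℝ} (hτ : ∀ l, |u l - v l| ≤ τ) :
    |∏ l, u l ^ (i l : ℕ) - ∏ l, v l ^ (i l : ℕ)| ≤ m * (D * τ) := by
  have h1 := prod_diff univ (fun l => u l ^ (i l : ℕ)) (fun l => v l ^ (i l : ℕ))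
    (fun l _ => by rw [abs_pow]; exact pow_le_one₀ (abs_nonneg _) (hu l))
    (fun l _ => by rw [abs_pow]; exact pow_le_one₀ (abs_nonneg _) (hv l))
  refine h1.trans ?_
  have h2 : ∀ l ∈ (univ : Finset (Fin m)), |u l ^ (i l : ℕ) - v l ^ (i l : ℕ)| ≤ D * τ := by
    intro l _
    refine (pow_diff _ (hu l) (hv l)).trans ?_
    have h3 : (((i l : ℕ)) : ℝ) ≤ D := by exact_mod_cast Nat.lt_succ_iff.1 (i l).2
    exact mul_le_mul h3 (hτ l) (abs_nonneg _) (by positivity)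
  refine (Finset.sum_le_sum h2).trans (le_of_eq ?_)
  rw [sum_const, card_univ, Fintype.card_fin, nsmul_eq_mul]

end Pool.Agent.L0h44.ZW
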