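import Pool.Agent.L0h44.ZW.ZW4
import Mathlib.NumberTheory.ZetaValues
import Mathlib.NumberTheory.LSeries.HurwitzZetaValues
import Mathlib.Analysis.SpecialFunctions.Pow.Real
import Mathlib.Analysis.PSeries
import Mathlib.Analysis.Real.Pi.Bounds

/-!
# Windows: quantitative algebraic independence with exponentially large coefficients
-/

set_option autoImplicit false

namespace Pool.Agent.L0h44.ZW

open Finset Polynomial

/-- real zeta values -/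
noncomputable def Z (a : ℕ) : ℝ := ∑' k : ℕ, 1 / (k : ℝ) ^ a

lemma Z_eq {a : ℕ} (ha : 1 < a) : riemannZeta (a : ℂ) = ((Z a : ℝ) : ℂ) := by
  rw [zeta_nat_eq_tsum_of_gt_one ha, Z]
  push_cast
  rfl

lemma Z_summable {a : ℕ} (ha : 1 < a) : Summable fun k : ℕ => 1 / (k : ℝ) ^ a :=
  Real.summable_one_div_nat_pow.2 ha

lemma sum_sq_le : ∑' k : ℕ, 1 / (k : ℝ) ^ 2 ≤ 2 := by
  rw [hasSum_zeta_two.tsum_eq]
  have h1 := Real.pi_lt_d2
  have h2 := Real.pi_pos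
  nlinarith

/-- truncation -/
lemma Z_trunc {a K : ℕ} (ha : 2 ≤ a) (hK : 1 ≤ K) :
    0 ≤ Z a - 1 - ∑ k ∈ Icc 2 K, ((k : ℝ)⁻¹) ^ a ∧
      Z a - 1 - ∑ k ∈ Icc 2 K, ((k : ℝ)⁻¹) ^ a ≤ 2 * (K + 1 : ℝ) ^ 2 * ((K + 1 : ℝ)⁻¹) ^ a := by
  have hs := Z_summable (a := a) (by omega)
  have h1 : Z a = ∑ k ∈ range (K + 1), 1 / (k : ℝ) ^ a + ∑' k : ℕ, 1 / ((k + (K + 1) : ℕ) : ℝ) ^ a :=
    (hs.sum_add_tsum_nat_add (K + 1)).symm
  have h2 : ∑ k ∈ range (K + 1), 1 / (k : ℝ) ^ a = 1 + ∑ k ∈ Icc 2 K, ((k : ℝ)⁻¹) ^ a := by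
    have e1 : range (K + 1) = insert 0 (insert 1 (Icc 2 K)) := by
      ext k
      simp only [Finset.mem_range, Finset.mem_insert, Finset.mem_Icc]
      omega
    rw [e1, sum_insert (by simp), sum_insert (by simp)]
    have e2 : (1 : ℝ) / ((0 : ℕ) : ℝ) ^ a = 0 := by
      rw [Nat.cast_zero, zero_pow (by omega), div_zero]
    rw [e2, zero_add, Nat.cast_one, one_pow, div_one]
    congr 1
    apply Finset.sum_congr rfl
    intro k _
    rw [inv_pow, one_div]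
  have h3 : Z a - 1 - ∑ k ∈ Icc 2 K, ((k : ℝ)⁻¹) ^ a = ∑' k : ℕ, 1 / ((k + (K + 1) : ℕ) : ℝ) ^ a := by
    rw [h1, h2]; ring
  rw [h3]
  refine ⟨tsum_nonneg fun k => by positivity, ?_⟩
  have hs2 : Summable fun k : ℕ => 1 / ((k + (K + 1) : ℕ) : ℝ) ^ 2 :=
    (summable_nat_add_iff (f := fun k : ℕ => 1 / (k : ℝ) ^ 2) (K + 1)).2 (Z_summable (a := 2) (by norm_num))
  have hs3 : Summable fun k : ℕ => 1 / ((k + (K + 1) : ℕ) : ℝ) ^ a :=
    (summable_nat_add_iff (f := fun k : ℕ => 1 / (k : ℝ) ^ a) (K + 1)).2 hs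
  have h4 : ∀ k : ℕ, 1 / ((k + (K + 1) : ℕ) : ℝ) ^ a ≤
      (K + 1 : ℝ) ^ 2 * ((K + 1 : ℝ)⁻¹) ^ a * (1 / ((k + (K + 1) : ℕ) : ℝ) ^ 2) := by
    intro k
    obtain ⟨b, rfl⟩ := Nat.exists_eq_add_of_le ha
    have e0 : (0 : ℝ) < K + 1 := by positivity
    have e1 : (K + 1 : ℝ) ^ 2 * ((K + 1 : ℝ)⁻¹) ^ (2 + b) = ((K + 1 : ℝ)⁻¹) ^ b := by
      rw [pow_add, ← mul_assoc, ← mul_pow, mul_inv_cancel₀ e0.ne', one_pow, one_mul]
    rw [e1, one_div, one_div, ← inv_pow, ← inv_pow, pow_add, mul_comm]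
    apply mul_le_mul_of_nonneg_right _ (by positivity)
    apply pow_le_pow_left₀ (by positivity)
    apply inv_anti₀ e0
    push_cast
    have : (0 : ℝ) ≤ k := Nat.cast_nonneg k
    linarith
  have h5 := hs3.tsum_le_tsum h4 (hs2.mul_left _)
  rw [tsum_mul_left] at h5
  refine h5.trans ?_
  have h6 : ∑' k : ℕ, 1 / ((k + (K + 1) : ℕ) : ℝ) ^ 2 ≤ 2 := by
    have e1 := (Z_summable (a := 2) (by norm_num)).sum_add_tsum_nat_add (K + 1)
    have e2 : 0 ≤ ∑ k ∈ range (K + 1), 1 / (k : ℝ) ^ 2 := Finset.sum_nonneg fun _ _ => by positivity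
    have e3 := sum_sq_le
    linarith
  calc (K + 1 : ℝ) ^ 2 * ((K + 1 : ℝ)⁻¹) ^ a * ∑' k : ℕ, 1 / ((k + (K + 1) : ℕ) : ℝ) ^ 2
      ≤ (K + 1 : ℝ) ^ 2 * ((K + 1 : ℝ)⁻¹) ^ a * 2 := mul_le_mul_of_nonneg_left h6 (by positivity)
    _ = _ := by ring

lemma Z_sub_one {a : ℕ} (ha : 2 ≤ a) : 0 ≤ Z a - 1 ∧ Z a - 1 ≤ 1 := by
  have h1 := Z_trunc (K := 1) ha le_rfl
  have h2 : ∑ k ∈ Icc 2 (1 : ℕ), ((k : ℝ)⁻¹) ^ a = 0 := by
    rw [Finset.sum_eq_zero]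
    intro k hk
    have := Finset.mem_Icc.1 hk
    omega
  rw [h2, sub_zero] at h1
  refine ⟨h1.1, ?_⟩
  -- compare with `ζ(2) ≤ 2`
  have hs := Z_summable (a := a) (by omega)
  have h3 : Z a ≤ ∑' k : ℕ, 1 / (k : ℝ) ^ 2 := by
    refine hs.tsum_le_tsum (fun k => ?_) (Z_summable (a := 2) (by norm_num))
    rcases Nat.eq_zero_or_pos k with rfl | hk
    · simp [show a ≠ 0 by omega]
    · apply one_div_le_one_div_of_le (by positivity)
      exact pow_le_pow_right₀ (by exact_mod_cast hk) ha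
  have h4 := sum_sq_le
  linarith

/-- the value of the family of polynomials at zeta values, with coefficients `v_j` -/
noncomputable def ev {k m : ℕ} (v : Fin k → ℝ) (a : Fin m → ℕ) (f : Fin k → MvPolynomial (Fin m) ℤ) : ℝ :=
  ∑ j, MvPolynomial.aeval (fun l => Z (a l)) (f j) * v j

lemma ev_eq {k m D : ℕ} (v : Fin k → ℝ) (a : Fin m → ℕ) (f : Fin k → MvPolynomial (Fin m) ℤ)
    (hf : ∀ j l, (f j).degreeOf l ≤ D) : ev v a f =
      ∑ i : Fin m → Fin (D + 1), lin v (fun j => tt D (f j) i) * ∏ l, (Z (a l) - 1) ^ (i l : ℕ) := by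
  unfold ev lin
  have h1 : ∀ j, MvPolynomial.aeval (fun l => Z (a l)) (f j) * v j =
      ∑ i : Fin m → Fin (D + 1), (tt D (f j) i : ℝ) * v j * ∏ l, (Z (a l) - 1) ^ (i l : ℕ) := by
    intro j
    rw [tt_aeval (f j) (hf j), sum_mul]
    apply Finset.sum_congr rfl
    intro i _
    ring
  simp_rw [h1]
  rw [sum_comm]
  apply Finset.sum_congr rfl
  intro i _
  rw [sum_mul]

lemma tt_family_ne {k m D : ℕ} (f : Fin k → MvPolynomial (Fin m) ℤ) (hf : ∀ j l, (f j).degreeOf l ≤ D)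
    (h0 : f ≠ 0) : ∃ i : Fin m → Fin (D + 1), (fun j => tt D (f j) i) ≠ 0 := by
  obtain ⟨j, hj⟩ := Function.ne_iff.1 h0
  obtain ⟨i, hi⟩ := tt_ne (f j) (hf j) hj
  exact ⟨i, fun h => hi (congrFun h j)⟩

lemma CMul_inv (n : ℕ) : CMul (fun k : ℕ => ((k : ℝ)⁻¹) ^ n) := by
  refine ⟨by simp, fun a b _ _ => ?_⟩
  simp only
  push_cast
  rw [mul_inv, mul_pow]

/-- `|∑ q_i ∏ y^i|` from below, for given data -/
lemma core {m D R M0 : ℕ} (hM0 : 1 ≤ M0) {A3 Lw : ℝ} {n : ℕ} (hn : 2 ≤ n) (a r d : Fin m → ℕ)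
    (hr1 : ∀ l, 1 ≤ r l) (hrR : ∀ l, r l ≤ R) (had : ∀ l, a l = r l * n + d l)
    (q : (Fin m → Fin (D + 1)) → ℝ) {Q : ℝ} (hq : ∀ i, |q i| ≤ Q)
    {M : ℕ} (hM1 : 1 ≤ M) (hMM : M ≤ M0) (hmin : ∀ N, 1 ≤ N → N < M → CC M0 r d q N = 0)
    (hlow : Lw ≤ |CC M0 r d q M|) (hC : ∀ N, |CC M0 r d q N| ≤ A3) :
    ((M : ℝ)⁻¹) ^ n * Lw - ((D + 1 : ℝ) ^ m * (Q * (m * (D * (2 * (M0 + 1 : ℝ) ^ 2)))) +
        (M0 ^ (R * D * m) : ℕ) * A3) * (((M : ℝ) + 1)⁻¹) ^ n ≤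
      |∑ i : Fin m → Fin (D + 1), q i * ∏ l, (Z (a l) - 1) ^ (i l : ℕ)| := by
  have hQ0 : 0 ≤ Q := (abs_nonneg _).trans (hq (fun _ => 0))
  have ha2 : ∀ l, 2 ≤ a l := fun l => by
    rw [had l]
    have := Nat.mul_le_mul (hr1 l) hn
    omega
  set yt : Fin m → ℝ := fun l => ∑ k ∈ Icc 2 M0, ((k : ℝ)⁻¹) ^ a l with hyt
  have hMpos : (0 : ℝ) < (M : ℝ) + 1 := by positivity
  have hM0pos : (0 : ℝ) < (M0 : ℝ) + 1 := by positivity
  have hinvM : ((M0 : ℝ) + 1)⁻¹ ^ n ≤ (((M : ℝ) + 1)⁻¹) ^ n := by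
    apply pow_le_pow_left₀ (by positivity)
    apply inv_anti₀ hMpos
    have : (M : ℝ) ≤ M0 := by exact_mod_cast hMM
    linarith
  -- truncation error
  have htr : ∀ l, 0 ≤ Z (a l) - 1 - yt l ∧ Z (a l) - 1 - yt l ≤
      2 * (M0 + 1 : ℝ) ^ 2 * (((M : ℝ) + 1)⁻¹) ^ n := by
    intro l
    have h1 := Z_trunc (ha2 l) hM0
    refine ⟨h1.1, h1.2.trans ?_⟩
    apply mul_le_mul_of_nonneg_left _ (by positivity)
    refine le_trans ?_ hinvM
    apply pow_le_pow_of_le_one (by positivity)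
    · apply inv_le_one_of_one_le₀
      have : (0 : ℝ) ≤ M0 := Nat.cast_nonneg _
      linarith
    · rw [had l]
      have := Nat.mul_le_mul_right n (hr1 l)
      omega
  have hyt0 : ∀ l, 0 ≤ yt l := fun l => Finset.sum_nonneg fun k _ => by positivity
  have h1 : ∀ i : Fin m → Fin (D + 1), |∏ l, (Z (a l) - 1) ^ (i l : ℕ) - ∏ l, yt l ^ (i l : ℕ)| ≤
      m * (D * (2 * (M0 + 1 : ℝ) ^ 2 * (((M : ℝ) + 1)⁻¹) ^ n)) := by
    intro i
    apply mono_diff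
    · intro l
      have := Z_sub_one (ha2 l)
      rw [abs_of_nonneg this.1]; exact this.2
    · intro l
      have := Z_sub_one (ha2 l)
      rw [abs_of_nonneg (hyt0 l)]
      linarith [(htr l).1]
    · intro l
      rw [abs_of_nonneg (htr l).1]
      exact (htr l).2
  -- expansion
  have h2 := expand M0 r d q (CMul_inv n) (M0 ^ (R * D * m)) (fun i x hx => MM_le hM0 hrR hx)
  have h3 : ∀ l, ∑ k ∈ Icc 2 M0, ((k : ℝ)⁻¹) ^ d l * (((k : ℝ)⁻¹) ^ n) ^ r l = yt l := by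
    intro l
    rw [hyt]
    apply Finset.sum_congr rfl
    intro k _
    rw [← pow_mul, ← pow_add, had l]
    congr 1
    ring
  simp_rw [h3] at h2
  set B : ℕ := M0 ^ (R * D * m) with hB
  have hA30 : 0 ≤ A3 := (abs_nonneg _).trans (hC 1)
  -- the sum over N
  have h4 : ((M : ℝ)⁻¹) ^ n * Lw - B * A3 * (((M : ℝ) + 1)⁻¹) ^ n ≤
      |∑ N ∈ Icc 1 B, CC M0 r d q N * ((N : ℝ)⁻¹) ^ n| := by
    by_cases hMB : M ≤ B
    · have hmem : M ∈ Icc 1 B := Finset.mem_Icc.2 ⟨hM1, hMB⟩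
      rw [← Finset.add_sum_erase _ _ hmem]
      have h5 : |∑ N ∈ (Icc 1 B).erase M, CC M0 r d q N * ((N : ℝ)⁻¹) ^ n| ≤
          B * A3 * (((M : ℝ) + 1)⁻¹) ^ n := by
        refine (Finset.abs_sum_le_sum_abs _ _).trans ?_
        have h6 : ∀ N ∈ (Icc 1 B).erase M, |CC M0 r d q N * ((N : ℝ)⁻¹) ^ n| ≤
            A3 * (((M : ℝ) + 1)⁻¹) ^ n := by
          intro N hN
          rw [Finset.mem_erase, Finset.mem_Icc] at hN
          rcases lt_or_gt_of_ne hN.1 with h7 | h7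
          · rw [hmin N hN.2.1 h7, zero_mul, abs_zero]
            positivity
          · rw [abs_mul]
            apply mul_le_mul (hC N) _ (abs_nonneg _) hA30
            rw [abs_of_nonneg (by positivity)]
            apply pow_le_pow_left₀ (by positivity)
            apply inv_anti₀ hMpos
            exact_mod_cast h7
        refine (Finset.sum_le_sum h6).trans ?_
        rw [sum_const, nsmul_eq_mul]
        have h7 : (((Icc 1 B).erase M).card : ℝ) ≤ B := by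
          have := Finset.card_le_card (Finset.erase_subset M (Icc 1 B))
          rw [Nat.card_Icc, Nat.add_sub_cancel] at this
          exact_mod_cast this
        calc (((Icc 1 B).erase M).card : ℝ) * (A3 * (((M : ℝ) + 1)⁻¹) ^ n) ≤
            B * (A3 * (((M : ℝ) + 1)⁻¹) ^ n) := mul_le_mul_of_nonneg_right h7 (by positivity)
          _ = _ := by ring
      have h8 : ((M : ℝ)⁻¹) ^ n * Lw ≤ |CC M0 r d q M * ((M : ℝ)⁻¹) ^ n| := by
        rw [abs_mul, mul_comm, abs_of_nonneg (show (0 : ℝ) ≤ ((M : ℝ)⁻¹) ^ n by positivity)]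
        exact mul_le_mul_of_nonneg_right hlow (by positivity)
      have h9 := abs_sub_abs_le_abs_add (CC M0 r d q M * ((M : ℝ)⁻¹) ^ n)
        (∑ N ∈ (Icc 1 B).erase M, CC M0 r d q N * ((N : ℝ)⁻¹) ^ n)
      linarith
    · -- then the coefficient is zero
      have h5 : CC M0 r d q M = 0 := by
        unfold CC
        apply Finset.sum_eq_zero
        intro i _
        have h6 : (XX M0 i).filter (fun x => MM r i x = M) = ∅ := by
          rw [Finset.filter_eq_empty_iff]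
          intro x hx h7
          apply hMB
          rw [← h7]
          exact MM_le hM0 hrR hx
        rw [h6, sum_empty, mul_zero]
      rw [h5, abs_zero] at hlow
      have h6 : ((M : ℝ)⁻¹) ^ n * Lw ≤ 0 := mul_nonpos_of_nonneg_of_nonpos (by positivity) hlow
      have h7 : (0 : ℝ) ≤ B * A3 * (((M : ℝ) + 1)⁻¹) ^ n := by positivity
      have h8 := abs_nonneg (∑ N ∈ Icc 1 B, CC M0 r d q N * ((N : ℝ)⁻¹) ^ n)
      linarith
  rw [← h2] at h4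
  -- compare
  have h5 : |∑ i : Fin m → Fin (D + 1), q i * ∏ l, (Z (a l) - 1) ^ (i l : ℕ) -
      ∑ i : Fin m → Fin (D + 1), q i * ∏ l, yt l ^ (i l : ℕ)| ≤
      (D + 1 : ℝ) ^ m * (Q * (m * (D * (2 * (M0 + 1 : ℝ) ^ 2)))) * (((M : ℝ) + 1)⁻¹) ^ n := by
    rw [← sum_sub_distrib]
    refine (Finset.abs_sum_le_sum_abs _ _).trans ?_
    have h6 : ∀ i ∈ (univ : Finset (Fin m → Fin (D + 1))),
        |q i * ∏ l, (Z (a l) - 1) ^ (i l : ℕ) - q i * ∏ l, yt l ^ (i l : ℕ)| ≤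
        Q * (m * (D * (2 * (M0 + 1 : ℝ) ^ 2 * (((M : ℝ) + 1)⁻¹) ^ n))) := by
      intro i _
      rw [← mul_sub, abs_mul]
      exact mul_le_mul (hq i) (h1 i) (abs_nonneg _) hQ0
    refine (Finset.sum_le_sum h6).trans (le_of_eq ?_)
    rw [sum_const, card_univ, Fintype.card_fun, Fintype.card_fin, Fintype.card_fin, nsmul_eq_mul]
    push_cast
    ring
  have h6 := abs_sub_abs_le_abs_sub (∑ i : Fin m → Fin (D + 1), q i * ∏ l, yt l ^ (i l : ℕ))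
    (∑ i : Fin m → Fin (D + 1), q i * ∏ l, (Z (a l) - 1) ^ (i l : ℕ))
  rw [abs_sub_comm] at h6
  have h7 : ((D + 1 : ℝ) ^ m * (Q * (m * (D * (2 * (M0 + 1 : ℝ) ^ 2)))) + B * A3) * (((M : ℝ) + 1)⁻¹) ^ n =
    (D + 1 : ℝ) ^ m * (Q * (m * (D * (2 * (M0 + 1 : ℝ) ^ 2)))) * (((M : ℝ) + 1)⁻¹) ^ n +
      B * A3 * (((M : ℝ) + 1)⁻¹) ^ n := by ring
  rw [h7]
  linarith

end Pool.Agent.L0h44.ZW
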