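import Pool.Agent.L0h44.ZW.ZW5

/-!
# The window theorem
-/

set_option autoImplicit false

namespace Pool.Agent.L0h44.ZW

open Finset Polynomial

/-- **windows** -/
theorem window {k : ℕ} {v : Fin k → ℝ} (hmv : Measured v) (m D R : ℕ) : ∃ c δ C : ℝ, 0 < c ∧ 0 < δ ∧ 0 < C ∧ ∃ n0 : ℕ, ∀ n : ℕ, n0 ≤ n →
    ∀ a r : Fin m → ℕ, Function.Injective a → (∀ l, 1 ≤ r l) → (∀ l, r l ≤ R) →
    (∀ l, r l * n ≤ a l) → (∀ l, (a l : ℝ) ≤ (r l + δ) * n) →
    ∀ f : Fin k → MvPolynomial (Fin m) ℤ, f ≠ 0 → (∀ j l, (f j).degreeOf l ≤ D) →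
    (∀ j e, |(((f j).coeff e : ℤ) : ℝ)| ≤ Real.exp (c * n)) →
    Real.exp (-(C * n)) ≤ |ev v a f| := by
  obtain ⟨M0, hM0, hcoef⟩ := exists_coeff m D R
  obtain ⟨κ, c0, hκ, hc0, hmeas⟩ := id hmv
  have hM0pos : (0 : ℝ) < M0 := by exact_mod_cast hM0
  have hM01 : (1 : ℝ) ≤ M0 := by exact_mod_cast hM0
  set L : ℝ := Real.log M0 with hL
  have hL0 : 0 ≤ L := Real.log_nonneg hM01
  have hexpL : Real.exp L = M0 := Real.exp_log hM0pos
  set A1 : ℝ := (D + 1 : ℝ) ^ m * 2 ^ (D * m) with hA1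
  have hA10 : 1 ≤ A1 := by
    have e1 : (1 : ℝ) ≤ (D + 1 : ℝ) ^ m := one_le_pow₀ (by
      have : (0 : ℝ) ≤ D := Nat.cast_nonneg D
      linarith)
    have e2 : (1 : ℝ) ≤ 2 ^ (D * m) := one_le_pow₀ (by norm_num)
    rw [hA1]
    nlinarith
  have hSv : 0 ≤ ∑ j, |v j| := Finset.sum_nonneg fun _ _ => abs_nonneg _
  set A2 : ℝ := (∑ j, |v j| + 1) * A1 with hA2
  have hA20 : 0 < A2 := by positivity
  set A3 : ℝ := (D + 1 : ℝ) ^ m * (M0 ^ (D * m) * A2) with hA3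
  have hA30 : 0 < A3 := by positivity
  set A4 : ℝ := (D + 1 : ℝ) ^ m * M0 ^ (D * m) * A1 with hA4
  have hA40 : 1 ≤ A4 := by
    have e1 : (1 : ℝ) ≤ (D + 1 : ℝ) ^ m := one_le_pow₀ (by
      have : (0 : ℝ) ≤ D := Nat.cast_nonneg D
      linarith)
    have e2 : (1 : ℝ) ≤ (M0 : ℝ) ^ (D * m) := one_le_pow₀ hM01
    have e3 : (1 : ℝ) ≤ (D + 1 : ℝ) ^ m * M0 ^ (D * m) := by nlinarith
    rw [hA4]
    nlinarith
  have hA4pos : 0 < A4 := by linarith
  set A5 : ℝ := (D + 1 : ℝ) ^ m * (A2 * (m * (D * (2 * (M0 + 1 : ℝ) ^ 2)))) +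
    (M0 ^ (R * D * m) : ℕ) * A3 with hA5
  have hA50 : 0 ≤ A5 := by positivity
  set x : ℝ := 1 / (2 * (M0 + 1) * (κ + 1) * (L + 1)) with hx
  have hx0 : 0 < x := by positivity
  have hxeq : (κ + 1) * (L + 1) * x = 1 / (2 * (M0 + 1)) := by
    rw [hx]
    have e1 : κ + 1 ≠ 0 := by positivity
    have e2 : L + 1 ≠ 0 := by positivity
    field_simp
  set c1 : ℝ := c0 / A4 ^ κ with hc1
  have hA4κ : 0 < A4 ^ κ := Real.rpow_pos_of_pos hA4pos _
  have hc10 : 0 < c1 := div_pos hc0 hA4κ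
  set ε : ℝ := κ * (L * x + x) + L * x with hε
  have hε0 : 0 ≤ ε := by positivity
  have hεx : ε + x = 1 / (2 * (M0 + 1)) := by
    rw [← hxeq, hε]; ring
  have hε1 : ε ≤ 1 := by
    have e1 : 1 / (2 * ((M0 : ℝ) + 1)) ≤ 1 := by
      rw [div_le_one (by positivity)]
      linarith
    linarith
  -- large n
  have hlim : Filter.Tendsto (fun n : ℕ => Real.exp (-(1 / (2 * ((M0 : ℝ) + 1))) * n)) Filter.atTop (nhds 0) := by
    have e1 : Filter.Tendsto (fun n : ℕ => (1 / (2 * ((M0 : ℝ) + 1))) * (n : ℝ)) Filter.atTop Filter.atTop :=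
      Filter.Tendsto.const_mul_atTop (by positivity) tendsto_natCast_atTop_atTop
    have e2 := Real.tendsto_exp_neg_atTop_nhds_zero.comp e1
    refine e2.congr fun n => ?_
    simp only [Function.comp_apply]
    congr 1
    ring
  have hev1 : ∀ᶠ n : ℕ in Filter.atTop, A5 * Real.exp (-(1 / (2 * ((M0 : ℝ) + 1))) * n) < c1 / 2 := by
    have e1 := hlim.const_mul A5
    rw [mul_zero] at e1
    exact e1.eventually (gt_mem_nhds (by positivity))
  have hev2 : ∀ᶠ n : ℕ in Filter.atTop, Real.exp (-(1 / (2 * ((M0 : ℝ) + 1))) * n) < c1 / 2 :=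
    hlim.eventually (gt_mem_nhds (by positivity))
  obtain ⟨n0, hn0⟩ := Filter.eventually_atTop.1 (hev1.and (hev2.and (Filter.eventually_ge_atTop 2)))
  refine ⟨x, x, L + 2, hx0, hx0, by linarith, n0, fun n hn a r hainj hr1 hrR hlo hhi f hf hdeg hco => ?_⟩
  obtain ⟨hn1, hn2, hn3⟩ := hn0 n hn
  have hnpos : (0 : ℝ) < n := by exact_mod_cast (by omega : 0 < n)
  set H : ℝ := Real.exp (x * n) with hH
  have hH1 : 1 ≤ H := Real.one_le_exp (by positivity)
  -- the shifts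
  set d : Fin m → ℕ := fun l => a l - r l * n with hd
  have had : ∀ l, a l = r l * n + d l := fun l => (Nat.add_sub_cancel' (hlo l)).symm
  set Δ : ℕ := ⌊x * n⌋₊ with hΔ
  have hdΔ : ∀ l, d l ≤ Δ := by
    intro l
    apply Nat.le_floor
    have e1 := hhi l
    rw [had l] at e1
    push_cast at e1
    nlinarith
  have hΔx : (Δ : ℝ) ≤ x * n := Nat.floor_le (by positivity)
  have hrd : ∀ l l', r l = r l' → d l = d l' → l = l' := by
    intro l l' h1 h2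
    apply hainj
    rw [had l, had l', h1, h2]
  -- the coefficients
  set T : (Fin m → Fin (D + 1)) → Fin k → ℤ := fun i j => tt D (f j) i with hT
  set q : (Fin m → Fin (D + 1)) → ℝ := fun i => lin v (T i) with hq
  have hTle : ∀ i j, |(T i j : ℝ)| ≤ A1 * H := fun i j => (tt_le (f j) (hco j) i).trans (le_of_eq (by rw [hA1]))
  have hqQ : ∀ i, |q i| ≤ A2 * H := by
    intro i
    have e1 := lin_le v (T i) (hTle i)
    refine e1.trans ?_
    rw [hA2]
    nlinarith [mul_nonneg (by linarith : (0 : ℝ) ≤ A1) (by linarith : (0 : ℝ) ≤ H)]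
  have hq0 : q ≠ 0 := by
    obtain ⟨i, hi⟩ := tt_family_ne f hdeg hf
    intro h
    have e1 : q i = 0 := by rw [h]; rfl
    exact hmv.ne hi e1
  obtain ⟨M, ⟨hM1, hMM, hMC⟩, hmin⟩ : ∃ M, (1 ≤ M ∧ M ≤ M0 ∧ CC M0 r d q M ≠ 0) ∧
      ∀ N, 1 ≤ N → N < M → CC M0 r d q N = 0 := by
    classical
    have hex := hcoef r d hr1 hrR hrd q hq0
    refine ⟨Nat.find hex, Nat.find_spec hex, fun N hN1 hN2 => ?_⟩
    by_contra hcon
    exact Nat.find_min hex hN2 ⟨hN1, hN2.le.trans (Nat.find_spec hex).2.1, hcon⟩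
  have hMpos : (0 : ℝ) < M := by exact_mod_cast hM1
  have hMM' : (M : ℝ) ≤ M0 := by exact_mod_cast hMM
  -- bounds for powers
  have hMΔ : (M : ℝ) ^ Δ ≤ Real.exp (L * x * n) := by
    calc (M : ℝ) ^ Δ ≤ (M0 : ℝ) ^ Δ := pow_le_pow_left₀ hMpos.le hMM' _
      _ = Real.exp (L * Δ) := by rw [← hexpL, ← Real.exp_nat_mul]; congr 1; ring
      _ ≤ Real.exp (L * x * n) := by
        apply Real.exp_le_exp.2
        rw [mul_assoc]
        exact mul_le_mul_of_nonneg_left hΔx hL0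
  -- the lower bound for the coefficient
  have hlow : c1 * Real.exp (-(ε * n)) ≤ |CC M0 r d q M| := by
    set W := WW M0 Δ r d T M with hW
    have e1 : lin v W = (M : ℝ) ^ Δ * CC M0 r d q M := WW_lin hr1 hdΔ T M v
    have e2 : W ≠ 0 := by
      intro h
      have e0 : lin v (0 : Fin k → ℤ) = 0 := by simp [lin]
      rw [h, e0] at e1
      rcases mul_eq_zero.1 e1.symm with h1 | h1
      · exact (pow_pos hMpos _).ne' h1
      · exact hMC h1
    have e3 : ∀ j, |((W j : ℤ) : ℝ)| ≤ A4 * Real.exp ((L * x + x) * n) := by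
      intro j
      have f1 := WW_le (K := M0) (Δ := Δ) (r := r) (d := d) hM0 T (H := A1 * H) (by positivity) hTle M j
      refine f1.trans ?_
      have f2 : (M : ℝ) ^ Δ * (A1 * H) ≤ A1 * Real.exp ((L * x + x) * n) := by
        have f3 : Real.exp ((L * x + x) * n) = Real.exp (L * x * n) * H := by
          rw [hH, ← Real.exp_add]; congr 1; ring
        rw [f3]
        calc (M : ℝ) ^ Δ * (A1 * H) ≤ Real.exp (L * x * n) * (A1 * H) :=
              mul_le_mul_of_nonneg_right hMΔ (by positivity)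
          _ = _ := by ring
      calc (D + 1 : ℝ) ^ m * M0 ^ (D * m) * ((M : ℝ) ^ Δ * (A1 * H)) ≤
          (D + 1 : ℝ) ^ m * M0 ^ (D * m) * (A1 * Real.exp ((L * x + x) * n)) :=
            mul_le_mul_of_nonneg_left f2 (by positivity)
        _ = _ := by rw [hA4]; ring
    have e4 : 1 ≤ A4 * Real.exp ((L * x + x) * n) := by
      have f1 : 1 ≤ Real.exp ((L * x + x) * n) := Real.one_le_exp (by positivity)
      nlinarith
    have e5 := hmeas W e2 _ e4 e3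
    rw [e1, abs_mul, abs_of_pos (pow_pos hMpos _), Real.mul_rpow hA4pos.le (Real.exp_pos _).le,
      ← Real.exp_mul] at e5
    have e6 : c0 ≤ A4 ^ κ * (Real.exp (ε * n) * |CC M0 r d q M|) := by
      refine e5.trans ?_
      rw [mul_assoc]
      apply mul_le_mul_of_nonneg_left _ hA4κ.le
      have f1 : Real.exp (ε * n) = Real.exp ((L * x + x) * n * κ) * Real.exp (L * x * n) := by
        rw [← Real.exp_add, hε]; congr 1; ring
      rw [f1, mul_assoc (Real.exp ((L * x + x) * n * κ))]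
      apply mul_le_mul_of_nonneg_left _ (Real.exp_pos _).le
      exact mul_le_mul_of_nonneg_right hMΔ (abs_nonneg _)
    rw [hc1, Real.exp_neg, div_mul_eq_mul_div, div_le_iff₀ hA4κ]
    rw [← div_eq_mul_inv, div_le_iff₀ (Real.exp_pos _)]
    linarith
  -- the sum
  have hCC : ∀ N, |CC M0 r d q N| ≤ A3 * H := by
    intro N
    refine (CC_le hM0 q hqQ N).trans (le_of_eq ?_)
    rw [hA3]; ring
  have hmain := core hM0 hn3 a r d hr1 hrR had q hqQ hM1 hMM hmin hlow hCC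
  have hv : ev v a f = ∑ i : Fin m → Fin (D + 1), q i * ∏ l, (Z (a l) - 1) ^ (i l : ℕ) :=
    ev_eq v a f hdeg
  rw [hv]
  refine le_trans ?_ hmain
  have e1 : ((D + 1 : ℝ) ^ m * (A2 * H * (m * (D * (2 * (M0 + 1 : ℝ) ^ 2)))) +
        (M0 ^ (R * D * m) : ℕ) * (A3 * H)) = A5 * H := by
    rw [hA5]; ring
  rw [e1]
  -- ratio
  have e2 : (((M : ℝ) + 1)⁻¹) ^ n ≤ ((M : ℝ)⁻¹) ^ n * Real.exp (-(1 / ((M0 : ℝ) + 1)) * n) := by
    have f1 : (((M : ℝ) + 1)⁻¹) = (M : ℝ)⁻¹ * (1 - 1 / ((M : ℝ) + 1)) := by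
      field_simp
      ring
    have f2 : 1 - 1 / ((M : ℝ) + 1) ≤ Real.exp (-(1 / ((M0 : ℝ) + 1))) := by
      have g1 := Real.add_one_le_exp (-(1 / ((M0 : ℝ) + 1)))
      have g2 : 1 / ((M0 : ℝ) + 1) ≤ 1 / ((M : ℝ) + 1) :=
        one_div_le_one_div_of_le (by positivity) (by linarith)
      linarith
    have f3 : 0 ≤ 1 - 1 / ((M : ℝ) + 1) := by
      have : 1 / ((M : ℝ) + 1) ≤ 1 := by
        rw [div_le_one (by positivity)]; linarith
      linarith
    rw [f1, mul_pow]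
    apply mul_le_mul_of_nonneg_left _ (by positivity)
    calc (1 - 1 / ((M : ℝ) + 1)) ^ n ≤ Real.exp (-(1 / ((M0 : ℝ) + 1))) ^ n := pow_le_pow_left₀ f3 f2 _
      _ = _ := by rw [← Real.exp_nat_mul]; congr 1; ring
  have e3 : A5 * H * (((M : ℝ) + 1)⁻¹) ^ n ≤ ((M : ℝ)⁻¹) ^ n * (Real.exp (-(ε * n)) * (c1 / 2)) := by
    have f1 : A5 * H * (((M : ℝ) + 1)⁻¹) ^ n ≤
        A5 * H * (((M : ℝ)⁻¹) ^ n * Real.exp (-(1 / ((M0 : ℝ) + 1)) * n)) :=
      mul_le_mul_of_nonneg_left e2 (by positivity)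
    refine f1.trans ?_
    have f2 : A5 * H * (((M : ℝ)⁻¹) ^ n * Real.exp (-(1 / ((M0 : ℝ) + 1)) * n)) =
        ((M : ℝ)⁻¹) ^ n * (Real.exp (-(ε * n)) *
          (A5 * Real.exp (-(1 / (2 * ((M0 : ℝ) + 1))) * n))) := by
      have g1 : H * Real.exp (-(1 / ((M0 : ℝ) + 1)) * n) =
          Real.exp (-(ε * n)) * Real.exp (-(1 / (2 * ((M0 : ℝ) + 1))) * n) := by
        rw [hH, ← Real.exp_add, ← Real.exp_add]
        congr 1
        have g2 : 1 / ((M0 : ℝ) + 1) = 2 * (1 / (2 * ((M0 : ℝ) + 1))) := by field_simp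
        rw [g2, ← hεx]
        ring
      calc A5 * H * (((M : ℝ)⁻¹) ^ n * Real.exp (-(1 / ((M0 : ℝ) + 1)) * n)) =
          ((M : ℝ)⁻¹) ^ n * A5 * (H * Real.exp (-(1 / ((M0 : ℝ) + 1)) * n)) := by ring
        _ = _ := by rw [g1]; ring
    rw [f2]
    apply mul_le_mul_of_nonneg_left _ (by positivity)
    exact mul_le_mul_of_nonneg_left hn1.le (Real.exp_pos _).le
  have e4 : ((M : ℝ)⁻¹) ^ n * (Real.exp (-(ε * n)) * (c1 / 2)) ≤
      ((M : ℝ)⁻¹) ^ n * (c1 * Real.exp (-(ε * n))) - A5 * H * (((M : ℝ) + 1)⁻¹) ^ n := by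
    have f1 : ((M : ℝ)⁻¹) ^ n * (c1 * Real.exp (-(ε * n))) =
      2 * (((M : ℝ)⁻¹) ^ n * (Real.exp (-(ε * n)) * (c1 / 2))) := by ring
    rw [f1]
    linarith
  refine le_trans ?_ e4
  have e5 : Real.exp (-(L * n)) ≤ ((M : ℝ)⁻¹) ^ n := by
    have f1 : Real.exp (-(L * n)) = ((M0 : ℝ)⁻¹) ^ n := by
      rw [← hexpL, ← Real.exp_neg, ← Real.exp_nat_mul]; congr 1; ring
    rw [f1]
    apply pow_le_pow_left₀ (by positivity)
    exact inv_anti₀ hMpos hMM'
  have e6 : Real.exp (-(1 * n)) ≤ Real.exp (-(ε * n)) := by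
    apply Real.exp_le_exp.2
    nlinarith
  have e7 : Real.exp (-(1 * n)) ≤ c1 / 2 := by
    refine le_trans ?_ hn2.le
    apply Real.exp_le_exp.2
    have f1 : 1 / (2 * ((M0 : ℝ) + 1)) ≤ 1 := by
      rw [div_le_one (by positivity)]; linarith
    nlinarith
  calc Real.exp (-((L + 2) * n)) = Real.exp (-(L * n)) * (Real.exp (-(1 * n)) * Real.exp (-(1 * n))) := by
        rw [← Real.exp_add, ← Real.exp_add]; congr 1; ring
    _ ≤ _ := by
        apply mul_le_mul e5 _ (by positivity) (by positivity)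
        exact mul_le_mul e6 e7 (Real.exp_pos _).le (Real.exp_pos _).le

end Pool.Agent.L0h44.ZW
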