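import Pool.Agent.L0h44.ZW.ZW5

/-!
# Tuples whose integer combinations are well separated
-/

set_option autoImplicit false

namespace Pool.Agent.L0h44.ZW

open Finset Polynomial

lemma Z_two {a : ℕ} (ha : 8 ≤ a) : ((2 : ℝ)⁻¹) ^ a ≤ Z a - 1 ∧ Z a - 1 ≤ 2 * ((2 : ℝ)⁻¹) ^ a := by
  have h1 := Z_trunc (a := a) (K := 2) (by omega) (by norm_num)
  have h2 : ∑ k ∈ Icc 2 (2 : ℕ), ((k : ℝ)⁻¹) ^ a = ((2 : ℝ)⁻¹) ^ a := by simp
  rw [h2] at h1
  refine ⟨by linarith [h1.1], ?_⟩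
  have h3 : 2 * (((2 : ℕ) : ℝ) + 1) ^ 2 * ((((2 : ℕ) : ℝ) + 1)⁻¹) ^ a ≤ ((2 : ℝ)⁻¹) ^ a := by
    obtain ⟨b, rfl⟩ := Nat.exists_eq_add_of_le ha
    have e1 : (((2 : ℕ) : ℝ) + 1)⁻¹ = (2 : ℝ)⁻¹ * (2 / 3) := by norm_num
    rw [e1, mul_pow]
    have e2 : ((2 : ℝ) / 3) ^ (8 + b) ≤ (2 / 3) ^ 8 := pow_le_pow_of_le_one (by norm_num) (by norm_num) (by omega)
    have e3 : (2 / 3 : ℝ) ^ 8 ≤ 1 / 18 := by norm_num
    have e4 : (0 : ℝ) ≤ (2 : ℝ)⁻¹ ^ (8 + b) := by positivity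
    have e5 : (2 : ℝ) * (((2 : ℕ) : ℝ) + 1) ^ 2 = 18 := by norm_num
    rw [e5]
    nlinarith
  linarith [h1.2]

/-- products of the small quantities -/
lemma mono_two {m D : ℕ} {a : Fin m → ℕ} (ha : ∀ l, 8 ≤ a l) (i : Fin m → Fin (D + 1)) :
    ((2 : ℝ)⁻¹) ^ (∑ l, (i l : ℕ) * a l) ≤ ∏ l, (Z (a l) - 1) ^ (i l : ℕ) ∧
      ∏ l, (Z (a l) - 1) ^ (i l : ℕ) ≤ 2 ^ (D * m) * ((2 : ℝ)⁻¹) ^ (∑ l, (i l : ℕ) * a l) := by
  have h1 : ((2 : ℝ)⁻¹) ^ (∑ l, (i l : ℕ) * a l) = ∏ l, (((2 : ℝ)⁻¹) ^ a l) ^ (i l : ℕ) := by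
    rw [← prod_pow_eq_pow_sum]
    apply Finset.prod_congr rfl
    intro l _
    rw [← pow_mul, mul_comm]
  constructor
  · rw [h1]
    apply Finset.prod_le_prod (fun l _ => by positivity)
    intro l _
    exact pow_le_pow_left₀ (by positivity) (Z_two (ha l)).1 _
  · have h2 : ∏ l, (Z (a l) - 1) ^ (i l : ℕ) ≤ ∏ l : Fin m, (2 ^ D * (((2 : ℝ)⁻¹) ^ a l) ^ (i l : ℕ)) := by
      apply Finset.prod_le_prod
      · intro l _
        exact pow_nonneg (Z_sub_one (by have := ha l; omega)).1 _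
      · intro l _
        have h3 := pow_le_pow_left₀ (Z_sub_one (by have := ha l; omega)).1 (Z_two (ha l)).2 (i l : ℕ)
        refine h3.trans ?_
        rw [mul_pow]
        apply mul_le_mul_of_nonneg_right _ (by positivity)
        exact pow_le_pow_right₀ (by norm_num) (Nat.lt_succ_iff.1 (i l).2)
    refine h2.trans (le_of_eq ?_)
    rw [prod_mul_distrib, h1, prod_const, card_univ, Fintype.card_fin, ← pow_mul]

/-- **separated tuples** -/
theorem separated {k : ℕ} {v : Fin k → ℝ} (hmv : Measured v) (m D : ℕ) (η : ℝ) (hη : 0 < η) : ∃ c C : ℝ, 0 < c ∧ 0 < C ∧ ∃ N0 : ℕ, ∀ μ : ℕ, N0 ≤ μ →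
    ∀ a : Fin m → ℕ, (∀ l, μ ≤ a l) →
    (∀ i i' : Fin m → Fin (D + 1), i ≠ i' →
      η * μ ≤ |((∑ l, (i l : ℕ) * a l : ℕ) : ℝ) - ((∑ l, (i' l : ℕ) * a l : ℕ) : ℝ)|) →
    ∀ f : Fin k → MvPolynomial (Fin m) ℤ, f ≠ 0 → (∀ j l, (f j).degreeOf l ≤ D) →
    (∀ j e, |(((f j).coeff e : ℤ) : ℝ)| ≤ Real.exp (c * μ)) →
    Real.exp (-(C * (μ + ∑ l, (a l : ℝ)))) ≤ |ev v a f| := by
  obtain ⟨κ, c0, hκ, hc0, hmeas⟩ := id hmv
  set A1 : ℝ := (D + 1 : ℝ) ^ m * 2 ^ (D * m) with hA1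
  have hA10 : 1 ≤ A1 := by
    have e1 : (1 : ℝ) ≤ (D + 1 : ℝ) ^ m := one_le_pow₀ (by
      have : (0 : ℝ) ≤ D := Nat.cast_nonneg D
      linarith)
    have e2 : (1 : ℝ) ≤ 2 ^ (D * m) := one_le_pow₀ (by norm_num)
    rw [hA1]
    nlinarith
  have hA1pos : 0 < A1 := by linarith
  have hSv : 0 ≤ ∑ j, |v j| := Finset.sum_nonneg fun _ _ => abs_nonneg _
  set A2 : ℝ := (∑ j, |v j| + 1) * A1 with hA2
  have hA20 : 0 < A2 := by positivity
  set c1 : ℝ := c0 / A1 ^ κ with hc1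
  have hA1κ : 0 < A1 ^ κ := Real.rpow_pos_of_pos hA1pos _
  have hc10 : 0 < c1 := div_pos hc0 hA1κ
  set A5 : ℝ := (D + 1 : ℝ) ^ m * (A2 * 2 ^ (D * m)) with hA5
  have hA50 : 0 < A5 := by positivity
  set lg : ℝ := Real.log 2 with hlg
  have hlg0 : 0 < lg := Real.log_pos (by norm_num)
  have hlg1 : lg ≤ 1 := by
    have := Real.log_le_sub_one_of_pos (show (0 : ℝ) < 2 by norm_num)
    rw [hlg]; linarith
  have hexplg : Real.exp (-lg) = (2 : ℝ)⁻¹ := by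
    rw [Real.exp_neg, hlg, Real.exp_log (by norm_num)]
  set x : ℝ := η * lg / (2 * (κ + 1)) with hx
  have hx0 : 0 < x := by positivity
  have hxeq : (κ + 1) * x = η * lg / 2 := by
    rw [hx]
    have e1 : κ + 1 ≠ 0 := by positivity
    field_simp
  -- large
  have hlim : Filter.Tendsto (fun n : ℕ => Real.exp (-(η * lg / 2) * n)) Filter.atTop (nhds 0) := by
    have e1 : Filter.Tendsto (fun n : ℕ => (η * lg / 2) * (n : ℝ)) Filter.atTop Filter.atTop :=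
      Filter.Tendsto.const_mul_atTop (by positivity) tendsto_natCast_atTop_atTop
    have e2 := Real.tendsto_exp_neg_atTop_nhds_zero.comp e1
    refine e2.congr fun n => ?_
    simp only [Function.comp_apply]
    congr 1
    ring
  have hev1 : ∀ᶠ n : ℕ in Filter.atTop, A5 * Real.exp (-(η * lg / 2) * n) < c1 / 2 := by
    have e1 := hlim.const_mul A5
    rw [mul_zero] at e1
    exact e1.eventually (gt_mem_nhds (by positivity))
  have hev2 : ∀ᶠ n : ℕ in Filter.atTop, Real.exp (-(η * lg / 2) * n) < c1 / 2 :=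
    hlim.eventually (gt_mem_nhds (by positivity))
  obtain ⟨N0, hN0⟩ := Filter.eventually_atTop.1 (hev1.and (hev2.and (Filter.eventually_ge_atTop 8)))
  refine ⟨x, κ * x + η * lg / 2 + D + 1, hx0, by positivity, N0, fun μ hμ a haμ hsep f hf hdeg hco => ?_⟩
  obtain ⟨hn1, hn2, hn3⟩ := hN0 μ hμ
  have hμpos : (0 : ℝ) < μ := by exact_mod_cast (by omega : 0 < μ)
  set H : ℝ := Real.exp (x * μ) with hH
  have hH1 : 1 ≤ H := Real.one_le_exp (by positivity)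
  have ha8 : ∀ l, 8 ≤ a l := fun l => hn3.trans (haμ l)
  set T : (Fin m → Fin (D + 1)) → Fin k → ℤ := fun i j => tt D (f j) i with hT
  set q : (Fin m → Fin (D + 1)) → ℝ := fun i => lin v (T i) with hq
  have hTle : ∀ i j, |(T i j : ℝ)| ≤ A1 * H := fun i j => (tt_le (f j) (hco j) i).trans (le_of_eq (by rw [hA1]))
  have hqQ : ∀ i, |q i| ≤ A2 * H := by
    intro i
    have e1 := lin_le v (T i) (hTle i)
    refine e1.trans ?_
    rw [hA2]
    nlinarith [mul_nonneg (by linarith : (0 : ℝ) ≤ A1) (by linarith : (0 : ℝ) ≤ H)]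
  have hqlow : ∀ i, q i ≠ 0 → c1 * Real.exp (-(κ * x * μ)) ≤ |q i| := by
    intro i hi
    have e1 : T i ≠ 0 := by
      intro h
      apply hi
      rw [hq]
      simp [h, lin]
    have e4 : 1 ≤ A1 * H := by nlinarith
    have e5 := hmeas (T i) e1 _ e4 (hTle i)
    rw [Real.mul_rpow hA1pos.le (Real.exp_pos _).le, ← Real.exp_mul] at e5
    rw [hc1, Real.exp_neg, div_mul_eq_mul_div, div_le_iff₀ hA1κ, ← div_eq_mul_inv, div_le_iff₀ (Real.exp_pos _)]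
    refine e5.trans (le_of_eq ?_)
    have e6 : x * μ * κ = κ * x * μ := by ring
    rw [e6]
    ring
  set S : (Fin m → Fin (D + 1)) → ℕ := fun i => ∑ l, (i l : ℕ) * a l with hS
  obtain ⟨i0, hi0, hmin⟩ : ∃ i0, q i0 ≠ 0 ∧ ∀ i, q i ≠ 0 → S i0 ≤ S i := by
    have hne : (univ.filter fun i => q i ≠ 0).Nonempty := by
      obtain ⟨i, hi⟩ := tt_family_ne f hdeg hf
      exact ⟨i, Finset.mem_filter.2 ⟨mem_univ _, hmv.ne hi⟩⟩
    obtain ⟨i0, h1, h2⟩ := Finset.exists_min_image _ (fun i => S i) hne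
    exact ⟨i0, (Finset.mem_filter.1 h1).2, fun i hi => h2 i (Finset.mem_filter.2 ⟨mem_univ _, hi⟩)⟩
  have hv : ev v a f = ∑ i : Fin m → Fin (D + 1), q i * ∏ l, (Z (a l) - 1) ^ (i l : ℕ) :=
    ev_eq v a f hdeg
  rw [hv, ← Finset.add_sum_erase _ _ (mem_univ i0)]
  -- the others
  have hoth : |∑ i ∈ univ.erase i0, q i * ∏ l, (Z (a l) - 1) ^ (i l : ℕ)| ≤
      ((2 : ℝ)⁻¹) ^ S i0 * (A5 * Real.exp (x * μ - η * lg * μ)) := by
    refine (Finset.abs_sum_le_sum_abs _ _).trans ?_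
    have h1 : ∀ i ∈ (univ : Finset (Fin m → Fin (D + 1))).erase i0,
        |q i * ∏ l, (Z (a l) - 1) ^ (i l : ℕ)| ≤
        A2 * 2 ^ (D * m) * (((2 : ℝ)⁻¹) ^ S i0 * Real.exp (x * μ - η * lg * μ)) := by
      intro i hi
      have hne := Finset.ne_of_mem_erase hi
      by_cases hqi : q i = 0
      · rw [hqi, zero_mul, abs_zero]
        positivity
      have h2 := mono_two ha8 i
      rw [abs_mul, abs_of_nonneg (le_trans (by positivity) h2.1)]
      have h3 : ((2 : ℝ)⁻¹) ^ S i ≤ ((2 : ℝ)⁻¹) ^ S i0 * Real.exp (-(η * lg * μ)) := by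
        have e1 := hsep i i0 hne
        have e2 : (S i0 : ℝ) ≤ S i := by exact_mod_cast hmin i hqi
        have e3 : |(S i : ℝ) - (S i0 : ℝ)| = (S i : ℝ) - S i0 := abs_of_nonneg (by linarith)
        have e4 : η * μ ≤ (S i : ℝ) - S i0 := by rw [← e3]; exact e1
        rw [← hexplg, ← Real.exp_nat_mul, ← Real.exp_nat_mul, ← Real.exp_add]
        apply Real.exp_le_exp.2
        nlinarith
      calc |q i| * ∏ l, (Z (a l) - 1) ^ (i l : ℕ) ≤
          (A2 * H) * (2 ^ (D * m) * (((2 : ℝ)⁻¹) ^ S i0 * Real.exp (-(η * lg * μ)))) := by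
            apply mul_le_mul (hqQ i) _ (le_trans (by positivity) h2.1) (by positivity)
            exact h2.2.trans (mul_le_mul_of_nonneg_left h3 (by positivity))
        _ = A2 * 2 ^ (D * m) * (((2 : ℝ)⁻¹) ^ S i0 * (H * Real.exp (-(η * lg * μ)))) := by ring
        _ = _ := by
            have e7 : x * μ + -(η * lg * μ) = x * μ - η * lg * μ := by ring
            rw [hH, ← Real.exp_add, e7]
    refine (Finset.sum_le_sum h1).trans ?_
    rw [sum_const, nsmul_eq_mul]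
    have h2 : (((univ : Finset (Fin m → Fin (D + 1))).erase i0).card : ℝ) ≤ (D + 1 : ℝ) ^ m := by
      have e1 := Finset.card_le_card (Finset.erase_subset i0 (univ : Finset (Fin m → Fin (D + 1))))
      rw [card_univ, Fintype.card_fun, Fintype.card_fin, Fintype.card_fin] at e1
      exact_mod_cast e1
    calc (((univ : Finset (Fin m → Fin (D + 1))).erase i0).card : ℝ) *
        (A2 * 2 ^ (D * m) * (((2 : ℝ)⁻¹) ^ S i0 * Real.exp (x * μ - η * lg * μ))) ≤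
        (D + 1 : ℝ) ^ m * (A2 * 2 ^ (D * m) * (((2 : ℝ)⁻¹) ^ S i0 * Real.exp (x * μ - η * lg * μ))) :=
          mul_le_mul_of_nonneg_right h2 (by positivity)
      _ = _ := by rw [hA5]; ring
  have hmainterm : ((2 : ℝ)⁻¹) ^ S i0 * (c1 * Real.exp (-(κ * x * μ))) ≤
      |q i0 * ∏ l, (Z (a l) - 1) ^ (i0 l : ℕ)| := by
    have h2 := mono_two ha8 i0
    rw [abs_mul, abs_of_nonneg (le_trans (by positivity) h2.1), mul_comm]
    exact mul_le_mul (hqlow i0 hi0) h2.1 (by positivity) (abs_nonneg _)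
  have h9 := abs_sub_abs_le_abs_add (q i0 * ∏ l, (Z (a l) - 1) ^ (i0 l : ℕ))
    (∑ i ∈ univ.erase i0, q i * ∏ l, (Z (a l) - 1) ^ (i l : ℕ))
  have h10 : A5 * Real.exp (x * μ - η * lg * μ) ≤ Real.exp (-(κ * x * μ)) * (c1 / 2) := by
    have e1 : Real.exp (x * μ - η * lg * μ) = Real.exp (-(κ * x * μ)) * Real.exp (-(η * lg / 2) * μ) := by
      rw [← Real.exp_add]
      congr 1
      have e2 : x = η * lg / 2 - κ * x := by linarith
      nlinarith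
    rw [e1]
    calc A5 * (Real.exp (-(κ * x * μ)) * Real.exp (-(η * lg / 2) * μ)) =
        Real.exp (-(κ * x * μ)) * (A5 * Real.exp (-(η * lg / 2) * μ)) := by ring
      _ ≤ _ := mul_le_mul_of_nonneg_left hn1.le (Real.exp_pos _).le
  have h11 : ((2 : ℝ)⁻¹) ^ S i0 * (Real.exp (-(κ * x * μ)) * (c1 / 2)) ≤
      |q i0 * ∏ l, (Z (a l) - 1) ^ (i0 l : ℕ) + ∑ i ∈ univ.erase i0, q i * ∏ l, (Z (a l) - 1) ^ (i l : ℕ)| := by
    have e1 : ((2 : ℝ)⁻¹) ^ S i0 * (A5 * Real.exp (x * μ - η * lg * μ)) ≤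
        ((2 : ℝ)⁻¹) ^ S i0 * (Real.exp (-(κ * x * μ)) * (c1 / 2)) :=
      mul_le_mul_of_nonneg_left h10 (by positivity)
    have e2 : ((2 : ℝ)⁻¹) ^ S i0 * (c1 * Real.exp (-(κ * x * μ))) =
      2 * (((2 : ℝ)⁻¹) ^ S i0 * (Real.exp (-(κ * x * μ)) * (c1 / 2))) := by ring
    linarith
  refine le_trans ?_ h11
  -- final comparison
  have hSle : (S i0 : ℝ) ≤ D * ∑ l, (a l : ℝ) := by
    rw [hS]
    push_cast
    rw [mul_sum]
    apply Finset.sum_le_sum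
    intro l _
    have e1 : (((i0 l : ℕ)) : ℝ) ≤ D := by exact_mod_cast Nat.lt_succ_iff.1 (i0 l).2
    exact mul_le_mul_of_nonneg_right e1 (Nat.cast_nonneg _)
  have hsum0 : 0 ≤ ∑ l, (a l : ℝ) := Finset.sum_nonneg fun _ _ => Nat.cast_nonneg _
  have h12 : Real.exp (-(D * ∑ l, (a l : ℝ))) ≤ ((2 : ℝ)⁻¹) ^ S i0 := by
    rw [← hexplg, ← Real.exp_nat_mul]
    apply Real.exp_le_exp.2
    have e1 : (S i0 : ℝ) * lg ≤ (S i0 : ℝ) * 1 := mul_le_mul_of_nonneg_left hlg1 (Nat.cast_nonneg _)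
    linarith
  have h13 : Real.exp (-(η * lg / 2) * μ) ≤ c1 / 2 := hn2.le
  have h14 : Real.exp (-((κ * x + η * lg / 2 + D + 1) * (μ + ∑ l, (a l : ℝ)))) ≤
      Real.exp (-(D * ∑ l, (a l : ℝ))) * (Real.exp (-(κ * x * μ)) * Real.exp (-(η * lg / 2) * μ)) := by
    rw [← Real.exp_add, ← Real.exp_add]
    apply Real.exp_le_exp.2
    have e1 : 0 ≤ (D + 1 : ℝ) * μ := by positivity
    have e2 : 0 ≤ (κ * x + η * lg / 2 + 1) * ∑ l, (a l : ℝ) := by positivity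
    nlinarith
  refine h14.trans ?_
  apply mul_le_mul h12 _ (by positivity) (by positivity)
  exact mul_le_mul_of_nonneg_left h13 (Real.exp_pos _).le

end Pool.Agent.L0h44.ZW
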