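import Pool.Agent.L0h44.ZW.ZW6
import Pool.Agent.L0h44.ZW.ZW7

/-!
# All pairs
-/

set_option autoImplicit false

namespace Pool.Agent.L0h44.ZW

open Finset Polynomial

/-- **pairs** -/
theorem pairs {k : ℕ} {v : Fin k → ℝ} (hmv : Measured v) (D : ℕ) : ∃ c C : ℝ, 0 < c ∧ 0 < C ∧ ∃ N0 : ℕ, ∀ a : Fin 2 → ℕ, (∀ l, N0 ≤ a l) → a 0 ≠ a 1 →
    ∀ f : Fin k → MvPolynomial (Fin 2) ℤ, f ≠ 0 → (∀ j l, (f j).degreeOf l ≤ D) →
    (∀ j e, |(((f j).coeff e : ℤ) : ℝ)| ≤ Real.exp (c * ((min (a 0) (a 1) : ℕ) : ℝ))) →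
    Real.exp (-(C * ((max (a 0) (a 1) : ℕ) : ℝ))) ≤ |ev v a f| := by
  obtain ⟨c1, δ, C1, hc1, hδ, hC1, n0, hwin⟩ := window hmv 2 D D
  set η : ℝ := min (δ / (2 * D + 2)) (1 / 2) with hη
  have hD0 : (0 : ℝ) ≤ D := Nat.cast_nonneg D
  have hη0 : 0 < η := lt_min (by positivity) (by norm_num)
  have hηδ : η * (2 * D + 2) ≤ δ := by
    have : η ≤ δ / (2 * D + 2) := min_le_left _ _
    rwa [le_div_iff₀ (by positivity)] at this
  have hη1 : η ≤ 1 / 2 := min_le_right _ _
  obtain ⟨c2, C2, hc2, hC2, N2, hsepa⟩ := separated hmv 2 D η hη0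
  -- size of the threshold
  obtain ⟨n1, hn1⟩ := exists_nat_gt (2 * (D + D * η) / δ)
  set n2 : ℕ := max (max n0 n1) 1 with hn2
  set c : ℝ := min (c1 / (2 * D + 2)) c2 with hc
  have hc0 : 0 < c := lt_min (by positivity) hc2
  have hcc1 : c * (2 * D + 2) ≤ c1 := by
    have : c ≤ c1 / (2 * D + 2) := min_le_left _ _
    rwa [le_div_iff₀ (by positivity)] at this
  have hcc2 : c ≤ c2 := min_le_right _ _
  refine ⟨c, max C1 (3 * C2), hc0, lt_max_of_lt_left hC1, max N2 ((D + 1) * (n2 + 2)), fun a ha hne f hf hdeg hco => ?_⟩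
  set μ : ℕ := min (a 0) (a 1) with hμ
  have hμN : max N2 ((D + 1) * (n2 + 2)) ≤ μ := le_min (ha 0) (ha 1)
  have hμa : ∀ l, μ ≤ a l := by
    intro l
    fin_cases l
    · exact min_le_left _ _
    · exact min_le_right _ _
  have hμmax : (μ : ℝ) ≤ ((max (a 0) (a 1) : ℕ) : ℝ) := by
    have : μ ≤ max (a 0) (a 1) := (min_le_left _ _).trans (le_max_left _ _)
    exact_mod_cast this
  have hμ0 : (0 : ℝ) ≤ μ := Nat.cast_nonneg _
  by_cases hres : ∀ i i' : Fin 2 → Fin (D + 1), i ≠ i' →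
      η * μ ≤ |((∑ l, (i l : ℕ) * a l : ℕ) : ℝ) - ((∑ l, (i' l : ℕ) * a l : ℕ) : ℝ)|
  · have h1 := hsepa μ ((le_max_left _ _).trans hμN) a hμa hres f hf hdeg (fun j e => (hco j e).trans (by
      apply Real.exp_le_exp.2
      exact mul_le_mul_of_nonneg_right hcc2 hμ0))
    refine le_trans ?_ h1
    apply Real.exp_le_exp.2
    rw [Fin.sum_univ_two]
    have e1 : (a 0 : ℝ) ≤ ((max (a 0) (a 1) : ℕ) : ℝ) := by exact_mod_cast le_max_left (a 0) (a 1)
    have e2 : (a 1 : ℝ) ≤ ((max (a 0) (a 1) : ℕ) : ℝ) := by exact_mod_cast le_max_right (a 0) (a 1)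
    have e3 : C2 * ((μ : ℝ) + ((a 0 : ℝ) + a 1)) ≤ C2 * (3 * ((max (a 0) (a 1) : ℕ) : ℝ)) :=
      mul_le_mul_of_nonneg_left (by linarith) hC2.le
    have e4 : 3 * C2 * ((max (a 0) (a 1) : ℕ) : ℝ) ≤ max C1 (3 * C2) * ((max (a 0) (a 1) : ℕ) : ℝ) :=
      mul_le_mul_of_nonneg_right (le_max_right _ _) (by linarith)
    linarith
  · push Not at hres
    obtain ⟨i, i', hii, hlt⟩ := hres
    -- the resonance
    rw [Fin.sum_univ_two, Fin.sum_univ_two] at hlt
    push_cast at hlt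
    have hμpos : (0 : ℝ) < μ := by
      have : 0 < μ := lt_of_lt_of_le (by positivity) ((le_max_right _ _).trans hμN)
      exact_mod_cast this
    have ha0 : (μ : ℝ) ≤ a 0 := by exact_mod_cast hμa 0
    have ha1 : (μ : ℝ) ≤ a 1 := by exact_mod_cast hμa 1
    -- the two differences have opposite signs
    obtain ⟨s, r, hs1, hsD, hr1, hrD, hsr⟩ : ∃ s r : ℕ, 1 ≤ s ∧ s ≤ D ∧ 1 ≤ r ∧ r ≤ D ∧
        |(s : ℝ) * a 1 - r * a 0| < η * μ := by
      have hi0 : (i 0 : ℕ) ≤ D := Nat.lt_succ_iff.1 (i 0).2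
      have hi1 : (i 1 : ℕ) ≤ D := Nat.lt_succ_iff.1 (i 1).2
      have hi0' : (i' 0 : ℕ) ≤ D := Nat.lt_succ_iff.1 (i' 0).2
      have hi1' : (i' 1 : ℕ) ≤ D := Nat.lt_succ_iff.1 (i' 1).2
      have hlt2 := abs_lt.1 hlt
      have hημ : η * μ < μ := by nlinarith
      rcases lt_trichotomy (i 0 : ℕ) (i' 0 : ℕ) with h0 | h0 | h0
      · rcases lt_or_ge (i' 1 : ℕ) (i 1 : ℕ) with h1 | h1
        · refine ⟨(i 1 : ℕ) - (i' 1 : ℕ), (i' 0 : ℕ) - (i 0 : ℕ), by omega, by omega, by omega, by omega, ?_⟩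
          rw [Nat.cast_sub h1.le, Nat.cast_sub h0.le]
          refine lt_of_eq_of_lt ?_ hlt
          congr 1
          ring
        · exfalso
          have e1 : ((i 0 : ℕ) : ℝ) + 1 ≤ ((i' 0 : ℕ) : ℝ) := by exact_mod_cast h0
          have e2 : ((i 1 : ℕ) : ℝ) ≤ ((i' 1 : ℕ) : ℝ) := by exact_mod_cast h1
          have e3 : ((i 0 : ℕ) : ℝ) * a 0 + a 0 ≤ ((i' 0 : ℕ) : ℝ) * a 0 := by nlinarith
          have e4 : ((i 1 : ℕ) : ℝ) * a 1 ≤ ((i' 1 : ℕ) : ℝ) * a 1 :=
            mul_le_mul_of_nonneg_right e2 (Nat.cast_nonneg _)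
          linarith [hlt2.1]
      · exfalso
        have h0r : ((i 0 : ℕ) : ℝ) = ((i' 0 : ℕ) : ℝ) := by exact_mod_cast h0
        rcases lt_trichotomy (i 1 : ℕ) (i' 1 : ℕ) with h1 | h1 | h1
        · have e1 : ((i 1 : ℕ) : ℝ) + 1 ≤ ((i' 1 : ℕ) : ℝ) := by exact_mod_cast h1
          have e3 : ((i 1 : ℕ) : ℝ) * a 1 + a 1 ≤ ((i' 1 : ℕ) : ℝ) * a 1 := by nlinarith
          rw [h0r] at hlt2
          linarith [hlt2.1]
        · apply hii
          funext l
          fin_cases l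
          · exact Fin.ext h0
          · exact Fin.ext h1
        · have e1 : ((i' 1 : ℕ) : ℝ) + 1 ≤ ((i 1 : ℕ) : ℝ) := by exact_mod_cast h1
          have e3 : ((i' 1 : ℕ) : ℝ) * a 1 + a 1 ≤ ((i 1 : ℕ) : ℝ) * a 1 := by nlinarith
          rw [h0r] at hlt2
          linarith [hlt2.2]
      · rcases lt_or_ge (i 1 : ℕ) (i' 1 : ℕ) with h1 | h1
        · refine ⟨(i' 1 : ℕ) - (i 1 : ℕ), (i 0 : ℕ) - (i' 0 : ℕ), by omega, by omega, by omega, by omega, ?_⟩
          rw [Nat.cast_sub h1.le, Nat.cast_sub h0.le]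
          rw [abs_sub_comm] at hlt
          refine lt_of_eq_of_lt ?_ hlt
          congr 1
          ring
        · exfalso
          have e1 : ((i' 0 : ℕ) : ℝ) + 1 ≤ ((i 0 : ℕ) : ℝ) := by exact_mod_cast h0
          have e2 : ((i' 1 : ℕ) : ℝ) ≤ ((i 1 : ℕ) : ℝ) := by exact_mod_cast h1
          have e3 : ((i' 0 : ℕ) : ℝ) * a 0 + a 0 ≤ ((i 0 : ℕ) : ℝ) * a 0 := by nlinarith
          have e4 : ((i' 1 : ℕ) : ℝ) * a 1 ≤ ((i 1 : ℕ) : ℝ) * a 1 :=
            mul_le_mul_of_nonneg_right e2 (Nat.cast_nonneg _)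
          linarith [hlt2.2]
    -- the scale
    set n : ℕ := min (a 0 / s) (a 1 / r) with hn
    have hns : s * n ≤ a 0 :=
      (Nat.mul_le_mul_left s (min_le_left _ _)).trans (Nat.mul_div_le _ _)
    have hnr : r * n ≤ a 1 :=
      (Nat.mul_le_mul_left r (min_le_right _ _)).trans (Nat.mul_div_le _ _)
    have hsr2 := abs_lt.1 hsr
    have hs1' : (1 : ℝ) ≤ s := by exact_mod_cast hs1
    have hr1' : (1 : ℝ) ≤ r := by exact_mod_cast hr1
    have hsD' : (s : ℝ) ≤ D := by exact_mod_cast hsD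
    have hrD' : (r : ℝ) ≤ D := by exact_mod_cast hrD
    have hn0' : (0 : ℝ) ≤ n := Nat.cast_nonneg n
    -- upper bounds
    have hup : (a 0 : ℝ) ≤ s * n + D + η * μ ∧ (a 1 : ℝ) ≤ r * n + D + η * μ := by
      have hA : (a 0 : ℝ) < s * ((a 0 / s : ℕ) : ℝ) + s := by
        have := Nat.lt_mul_div_succ (a 0) (show 0 < s by omega)
        have h' : ((a 0 : ℕ) : ℝ) < ((s * (a 0 / s + 1) : ℕ) : ℝ) := by exact_mod_cast this
        push_cast at h'
        linarith
      have hB : (a 1 : ℝ) < r * ((a 1 / r : ℕ) : ℝ) + r := by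
        have := Nat.lt_mul_div_succ (a 1) (show 0 < r by omega)
        have h' : ((a 1 : ℕ) : ℝ) < ((r * (a 1 / r + 1) : ℕ) : ℝ) := by exact_mod_cast this
        push_cast at h'
        linarith
      have hημ0 : 0 ≤ η * μ := by positivity
      rcases le_total (a 0 / s) (a 1 / r) with h | h
      · have hn' : n = a 0 / s := min_eq_left h
        rw [← hn'] at hA
        refine ⟨by linarith, ?_⟩
        -- s a1 < r a0 + ημ ≤ r (s n + s) + ημ
        have e1 : (s : ℝ) * a 1 ≤ s * (r * n + r + η * μ) := by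
          have e2 : (r : ℝ) * a 0 ≤ r * (s * n + s) := mul_le_mul_of_nonneg_left hA.le (by linarith)
          nlinarith
        have e3 := le_of_mul_le_mul_left e1 (by linarith)
        linarith
      · have hn' : n = a 1 / r := min_eq_right h
        rw [← hn'] at hB
        refine ⟨?_, by linarith⟩
        have e1 : (r : ℝ) * a 0 ≤ r * (s * n + s + η * μ) := by
          have e2 : (s : ℝ) * a 1 ≤ s * (r * n + r) := mul_le_mul_of_nonneg_left hB.le (by linarith)
          nlinarith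
        have e3 := le_of_mul_le_mul_left e1 (by linarith)
        linarith
    -- μ ≤ D (n + 1)
    have hμn : μ < D * (n + 1) := by
      rcases le_total (a 0 / s) (a 1 / r) with h | h
      · have hn' : n = a 0 / s := min_eq_left h
        have h1 := Nat.lt_mul_div_succ (a 0) (show 0 < s by omega)
        rw [← hn'] at h1
        exact lt_of_le_of_lt (hμa 0) (lt_of_lt_of_le h1 (Nat.mul_le_mul_right _ hsD))
      · have hn' : n = a 1 / r := min_eq_right h
        have h1 := Nat.lt_mul_div_succ (a 1) (show 0 < r by omega)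
        rw [← hn'] at h1
        exact lt_of_le_of_lt (hμa 1) (lt_of_lt_of_le h1 (Nat.mul_le_mul_right _ hrD))
    have hnn2 : n2 ≤ n := by
      by_contra hcon
      have h1 : n + 1 ≤ n2 := by omega
      have h2 : D * (n + 1) ≤ D * n2 := Nat.mul_le_mul_left _ h1
      have h3 : (D + 1) * (n2 + 2) ≤ μ := (le_max_right _ _).trans hμN
      nlinarith
    have hn0n : n0 ≤ n := ((le_max_left _ _).trans (le_max_left _ _)).trans hnn2
    have hn1n : n1 ≤ n := ((le_max_right _ _).trans (le_max_left _ _)).trans hnn2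
    have hn1' : 1 ≤ n := (le_max_right _ _).trans hnn2
    have hn1r : (1 : ℝ) ≤ n := by exact_mod_cast hn1'
    have hμn' : (μ : ℝ) ≤ D * (n + 1) := by exact_mod_cast hμn.le
    have hlin : (D : ℝ) + D * η ≤ δ / 2 * n := by
      have h1 : 2 * (D + D * η) / δ < n := lt_of_lt_of_le hn1 (by exact_mod_cast hn1n)
      rw [div_lt_iff₀ hδ] at h1
      linarith
    have hslack : (D : ℝ) + η * μ ≤ δ * n := by
      have h1 : η * μ ≤ η * (D * (n + 1)) := mul_le_mul_of_nonneg_left hμn' hη0.le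
      have h2 : η * D * n ≤ δ / 2 * n := by
        apply mul_le_mul_of_nonneg_right _ hn0'
        nlinarith
      nlinarith
    have hainj : Function.Injective a := by
      intro l l' h
      fin_cases l <;> fin_cases l'
      · rfl
      · exact absurd h hne
      · exact absurd h.symm hne
      · rfl
    have h1 := hwin n hn0n a ![s, r] hainj
      (fun l => by fin_cases l <;> simp <;> omega) (fun l => by fin_cases l <;> simp <;> omega)
      (fun l => by
        fin_cases l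
        · simpa using hns
        · simpa using hnr)
      (fun l => by
        fin_cases l
        · simp
          linarith [hup.1]
        · simp
          linarith [hup.2])
      f hf hdeg (fun j e => (hco j e).trans (by
        apply Real.exp_le_exp.2
        have e1 : (μ : ℝ) ≤ (2 * D + 2) * n := by nlinarith
        calc c * μ ≤ c * ((2 * D + 2) * n) := mul_le_mul_of_nonneg_left e1 hc0.le
          _ = c * (2 * D + 2) * n := by ring
          _ ≤ c1 * n := mul_le_mul_of_nonneg_right hcc1 hn0'))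
    refine le_trans ?_ h1
    apply Real.exp_le_exp.2
    have e0 : (n : ℝ) ≤ μ := by
      have : n ≤ μ := le_min ((min_le_left _ _).trans (Nat.div_le_self _ _))
        ((min_le_right _ _).trans (Nat.div_le_self _ _))
      exact_mod_cast this
    have e1 : C1 * n ≤ C1 * ((max (a 0) (a 1) : ℕ) : ℝ) := mul_le_mul_of_nonneg_left (e0.trans hμmax) hC1.le
    have e2 : C1 * ((max (a 0) (a 1) : ℕ) : ℝ) ≤ max C1 (3 * C2) * ((max (a 0) (a 1) : ℕ) : ℝ) :=
      mul_le_mul_of_nonneg_right (le_max_left _ _) (by linarith)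
    linarith

end Pool.Agent.L0h44.ZW
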