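import Pool.Agent.L0h44.ZW.ZW8
import Pool.Agent.TH456.TM.Inst
import Mathlib.Algebra.MvPolynomial.Equiv

/-!
# The number `π`
-/

set_option autoImplicit false

namespace Pool.Agent.L0h44.ZW

open Finset Polynomial

/-- the powers of `π` -/
noncomputable def piv (D : ℕ) : Fin (D + 1) → ℝ := fun j => Real.pi ^ (j : ℕ)

/-- the measure of transcendence of `π` -/
theorem piv_measured (D : ℕ) : Measured (piv D) := by
  obtain ⟨κ, c, hκ, hc, h⟩ := Pool.Agent.TH456.TM.measT_pi D
  refine ⟨κ, c, hκ, hc, fun t ht H hH hco => ?_⟩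
  set T : ℤ[X] := ∑ j : Fin (D + 1), C (t j) * X ^ (j : ℕ) with hT
  have hcoef : ∀ n, T.coeff n = if h : n < D + 1 then t ⟨n, h⟩ else 0 := by
    intro n
    rw [hT, finsetSum_coeff]
    split_ifs with hn
    · rw [Finset.sum_eq_single ⟨n, hn⟩]
      · rw [coeff_C_mul, coeff_X_pow, if_pos rfl, mul_one]
      · intro j _ hne
        rw [coeff_C_mul, coeff_X_pow, if_neg, mul_zero]
        intro h1
        exact hne (Fin.ext h1.symm)
      · intro h1; exact absurd (mem_univ _) h1
    · apply Finset.sum_eq_zero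
      intro j _
      rw [coeff_C_mul, coeff_X_pow, if_neg, mul_zero]
      intro h1
      exact hn (h1 ▸ j.2)
  have hT0 : T ≠ 0 := by
    intro h0
    apply ht
    funext j
    have h1 := hcoef j
    rw [dif_pos j.2, h0, coeff_zero] at h1
    exact h1.symm
  have hdeg : T.natDegree ≤ D := by
    rw [hT]
    apply natDegree_sum_le_of_forall_le
    intro j _
    exact (natDegree_C_mul_X_pow_le _ _).trans (Nat.lt_succ_iff.1 j.2)
  have h1 := h T hT0 hdeg H hH (fun n => by
    rw [hcoef n]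
    split_ifs with hn
    · exact hco _
    · rw [Int.cast_zero, abs_zero]; linarith)
  have h2 : aeval (Real.pi : ℂ) T = ((lin (piv D) t : ℝ) : ℂ) := by
    rw [hT, map_sum, lin]
    push_cast
    apply Finset.sum_congr rfl
    intro j _
    simp [piv]
  rw [h2, Complex.norm_real, Real.norm_eq_abs] at h1
  exact h1

/-- the coefficients of the powers of the first variable -/
noncomputable def co {m : ℕ} (D : ℕ) (P : MvPolynomial (Fin (m + 1)) ℤ) : Fin (D + 1) → MvPolynomial (Fin m) ℤ :=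
  fun j => (MvPolynomial.finSuccEquiv ℤ m P).coeff (j : ℕ)

lemma co_coeff {m D : ℕ} (P : MvPolynomial (Fin (m + 1)) ℤ) (j : Fin (D + 1)) (e : Fin m →₀ ℕ) :
    (co D P j).coeff e = P.coeff (e.cons (j : ℕ)) := MvPolynomial.finSuccEquiv_coeff_coeff _ _ _

lemma co_deg {m D : ℕ} (P : MvPolynomial (Fin (m + 1)) ℤ) (hP : ∀ j, P.degreeOf j ≤ D) (j : Fin (D + 1))
    (l : Fin m) : (co D P j).degreeOf l ≤ D := by
  classical
  rw [MvPolynomial.degreeOf_le_iff]
  intro e he
  rw [MvPolynomial.mem_support_iff, co_coeff] at he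
  have h1 := MvPolynomial.le_degreeOf_of_mem_support l.succ (MvPolynomial.mem_support_iff.2 he)
  rw [Finsupp.cons_succ] at h1
  exact h1.trans (hP _)

lemma co_ne {m D : ℕ} (P : MvPolynomial (Fin (m + 1)) ℤ) (hP : ∀ j, P.degreeOf j ≤ D) (h0 : P ≠ 0) :
    co D P ≠ 0 := by
  obtain ⟨e, he⟩ := MvPolynomial.ne_zero_iff.1 h0
  intro h
  have h1 : e 0 < D + 1 := Nat.lt_succ_of_le
    ((MvPolynomial.le_degreeOf_of_mem_support 0 (MvPolynomial.mem_support_iff.2 he)).trans (hP 0))
  have h2 := co_coeff P ⟨e 0, h1⟩ e.tail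
  rw [h, Pi.zero_apply, MvPolynomial.coeff_zero] at h2
  apply he
  rw [h2]
  congr 1
  exact (Finsupp.cons_tail e).symm

lemma co_eval {m D : ℕ} (P : MvPolynomial (Fin (m + 1)) ℤ) (hP : ∀ j, P.degreeOf j ≤ D) (a : Fin m → ℕ) :
    MvPolynomial.aeval (Fin.cons Real.pi (fun l => Z (a l)) : Fin (m + 1) → ℝ) P = ev (piv D) a (co D P) := by
  have h1 : MvPolynomial.aeval (Fin.cons Real.pi (fun l => Z (a l)) : Fin (m + 1) → ℝ) P =
      Polynomial.eval Real.pi (Polynomial.map (MvPolynomial.aeval (fun l => Z (a l))).toRingHom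
        (MvPolynomial.finSuccEquiv ℤ m P)) := by
    rw [MvPolynomial.aeval_def, MvPolynomial.eval₂_eq_eval_map, MvPolynomial.eval_eq_eval_mv_eval']
    congr 1
    have h3 : MvPolynomial.finSuccEquiv ℝ m (MvPolynomial.map (algebraMap ℤ ℝ) P) =
        Polynomial.map (MvPolynomial.map (algebraMap ℤ ℝ)) (MvPolynomial.finSuccEquiv ℤ m P) := by
      ext i e
      rw [MvPolynomial.finSuccEquiv_coeff_coeff, MvPolynomial.coeff_map, Polynomial.coeff_map,
        MvPolynomial.coeff_map, MvPolynomial.finSuccEquiv_coeff_coeff]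
    rw [h3, Polynomial.map_map]
    congr 1
    apply MvPolynomial.ringHom_ext'
    · exact Subsingleton.elim _ _
    · intro i
      simp
  rw [h1]
  have hdeg : (Polynomial.map (MvPolynomial.aeval (fun l => Z (a l))).toRingHom
        (MvPolynomial.finSuccEquiv ℤ m P)).natDegree < D + 1 := by
    refine Nat.lt_succ_of_le ((Polynomial.natDegree_map_le).trans ?_)
    rw [MvPolynomial.natDegree_finSuccEquiv]
    exact hP 0
  rw [Polynomial.eval_eq_sum_range' hdeg, ← Fin.sum_univ_eq_sum_range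
    (fun j => (Polynomial.map (MvPolynomial.aeval (fun l => Z (a l))).toRingHom
        (MvPolynomial.finSuccEquiv ℤ m P)).coeff j * Real.pi ^ j) (D + 1), ev]
  apply Finset.sum_congr rfl
  intro j _
  rw [Polynomial.coeff_map]
  rfl

end Pool.Agent.L0h44.ZW
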